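import Pool.Agent.H81.MI.Defs

/-!
# Module Cop: from `Γ * ⟨x⟩` to lists

Every element of the coproduct is `inl c * ev t l'` (`t` = the generator, `l'` = `l` with its constants mapped by
`inl`). A list `l` of minimal length is reduced.
-/

set_option autoImplicit false

namespace Pool.Agent.H81.MI

section cop

variable {Γ : Type} [Group Γ]

/-- the generator -/
noncomputable def copT (Γ : Type) [Group Γ] : Monoid.Coprod Γ (Multiplicative ℤ) :=
  Monoid.Coprod.inr (Multiplicative.ofAdd 1)

/-- the value of a constant and a list in the coproduct -/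
noncomputable def copV (c : Γ) (l : List (Bool × Γ)) : Monoid.Coprod Γ (Multiplicative ℤ) :=
  Monoid.Coprod.inl c * ev (copT Γ) (l.map fun p => (p.1, Monoid.Coprod.inl p.2))

theorem copV_nil (c : Γ) : copV c [] = Monoid.Coprod.inl c := by
  simp [copV, ev]

theorem copV_cons (c : Γ) (p : Bool × Γ) (l : List (Bool × Γ)) :
    copV c (p :: l) = Monoid.Coprod.inl c * ltr (copT Γ) p.1 * copV p.2 l := by
  simp only [copV, ev, List.map_cons, mul_assoc]

theorem copV_mul (c d : Γ) (l : List (Bool × Γ)) :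
    Monoid.Coprod.inl c * copV d l = copV (c * d) l := by
  simp only [copV, map_mul, mul_assoc]

theorem ltr_cop_mul (b : Bool) (c : Γ) (l : List (Bool × Γ)) :
    ltr (copT Γ) b * copV c l = copV 1 ((b, c) :: l) := by
  rw [copV_cons, map_one, one_mul]

theorem cop_exists_aux (w : Monoid.Coprod Γ (Multiplicative ℤ)) :
    ∀ v : Monoid.Coprod Γ (Multiplicative ℤ), (∃ c l, v = copV c l) → ∃ c l, w * v = copV c l := by
  induction w using Monoid.Coprod.induction_on with
  | inl m =>
    rintro _ ⟨c, l, rfl⟩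
    exact ⟨m * c, l, copV_mul m c l⟩
  | inr n =>
    have hn : (Monoid.Coprod.inr n : Monoid.Coprod Γ (Multiplicative ℤ)) =
        copT Γ ^ (Multiplicative.toAdd n) := by
      rw [copT, ← map_zpow, ← ofAdd_zsmul, smul_eq_mul, mul_one, ofAdd_toAdd]
    rw [hn]
    generalize Multiplicative.toAdd n = k
    induction k using Int.induction_on with
    | zero =>
      rintro _ ⟨c, l, rfl⟩
      exact ⟨c, l, by rw [zpow_zero, one_mul]⟩
    | succ i ih =>
      rintro _ ⟨c, l, rfl⟩
      obtain ⟨c', l', h⟩ := ih _ ⟨1, (true, c) :: l, rfl⟩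
      refine ⟨c', l', ?_⟩
      rw [← h, ← ltr_cop_mul, ← mul_assoc, zpow_add_one]
      rfl
    | pred i ih =>
      rintro _ ⟨c, l, rfl⟩
      obtain ⟨c', l', h⟩ := ih _ ⟨1, (false, c) :: l, rfl⟩
      refine ⟨c', l', ?_⟩
      rw [← h, ← ltr_cop_mul, ← mul_assoc, zpow_sub_one]
      rfl
  | mul x y hx hy =>
    intro v hv
    rw [mul_assoc]
    exact hx _ (hy _ hv)

theorem cop_exists (w : Monoid.Coprod Γ (Multiplicative ℤ)) : ∃ c l, w = copV c l := by
  have := cop_exists_aux w 1 ⟨1, [], by rw [copV_nil, map_one]⟩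
  rwa [mul_one] at this

/-- a list which is not reduced can be shortened -/
theorem cop_shorten (l : List (Bool × Γ)) : ∀ c : Γ, ¬ Red l →
    ∃ c' l', copV c l = copV c' l' ∧ l'.length < l.length := by
  induction l with
  | nil => intro c h; exact absurd trivial h
  | cons p l ih =>
    intro c h
    cases l with
    | nil => exact absurd trivial h
    | cons q l₂ =>
      by_cases hq : Red (q :: l₂)
      · have hpq : ¬ (p.2 = 1 → p.1 = q.1) := fun h' => h ⟨h', hq⟩
        push Not at hpq
        obtain ⟨h1, h2⟩ := hpq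
        refine ⟨c * q.2, l₂, ?_, by simp⟩
        rw [copV_cons, copV_cons, h1, map_one, one_mul, ← copV_mul]
        have : ltr (copT Γ) p.1 * ltr (copT Γ) q.1 = 1 := by
          cases hp : p.1 <;> cases hq' : q.1 <;> simp_all [ltr]
        rw [mul_assoc, ← mul_assoc (ltr (copT Γ) p.1), this, one_mul]
      · obtain ⟨c', l', h1, h2⟩ := ih p.2 hq
        refine ⟨c, (p.1, c') :: l', ?_, by simpa using h2⟩
        rw [copV_cons, h1, copV_cons]

theorem cop_exists_red (w : Monoid.Coprod Γ (Multiplicative ℤ)) :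
    ∃ c l, Red l ∧ w = copV c l := by
  have key : ∀ n : ℕ, ∀ c : Γ, ∀ l : List (Bool × Γ), l.length = n → w = copV c l →
      ∃ c l, Red l ∧ w = copV c l := by
    intro n
    induction n using Nat.strong_induction_on with
    | _ n ih =>
      intro c l hl hw
      by_cases hr : Red l
      · exact ⟨c, l, hr, hw⟩
      · obtain ⟨c', l', h1, h2⟩ := cop_shorten l c hr
        exact ih l'.length (hl ▸ h2) c' l' rfl (hw.trans h1)
  obtain ⟨c, l, h⟩ := cop_exists w
  exact key _ c l rfl h

theorem lift_copT (x : Γ) :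
    Monoid.Coprod.lift (MonoidHom.id Γ) (zpowersHom Γ x) (copT Γ) = x := by
  rw [copT, Monoid.Coprod.lift_apply_inr]
  simp [zpowersHom]

theorem lift_ev (x : Γ) (l : List (Bool × Γ)) :
    Monoid.Coprod.lift (MonoidHom.id Γ) (zpowersHom Γ x)
      (ev (copT Γ) (l.map fun p => (p.1, Monoid.Coprod.inl p.2))) = ev x l := by
  induction l with
  | nil => simp [ev]
  | cons p l ih =>
    rw [List.map_cons, ev, ev, map_mul, map_mul, ih]
    congr 1
    congr 1
    cases hp : p.1 <;> simp [ltr, lift_copT]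

end cop

/-- If mixed words given by nonempty reduced lists take values different from any given constant on `P`, then
no `w ≠ 1` in `Γ * ⟨x⟩` is a mixed identity on `P`. -/
theorem coprod_of_list {Γ : Type} [Group Γ] (P : Set Γ) (hP : P.Nonempty)
    (H : ∀ l : List (Bool × Γ), Red l → l ≠ [] → ∀ c : Γ, ∃ x ∈ P, ev x l ≠ c)
    (w : Monoid.Coprod Γ (Multiplicative ℤ)) (hw : w ≠ 1) :
    ∃ x ∈ P, Monoid.Coprod.lift (MonoidHom.id Γ) (zpowersHom Γ x) w ≠ 1 := by
  obtain ⟨c, l, hr, rfl⟩ := cop_exists_red w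
  by_cases hl : l = []
  · subst hl
    obtain ⟨x, hx⟩ := hP
    refine ⟨x, hx, ?_⟩
    rw [copV_nil] at hw ⊢
    rw [Monoid.Coprod.lift_apply_inl, MonoidHom.id_apply]
    intro h
    exact hw (by rw [h, map_one])
  · obtain ⟨x, hx, hne⟩ := H l hr hl c⁻¹
    refine ⟨x, hx, fun h => hne ?_⟩
    rw [copV, map_mul, lift_ev, Monoid.Coprod.lift_apply_inl, MonoidHom.id_apply] at h
    exact eq_inv_of_mul_eq_one_right h

end Pool.Agent.H81.MI
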