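import Mathlib

/-!
# Project MI (MP_9b11f2_al): no mixed identities. Definitions.

`S = ℝ⟦X⟧`, `Au` = the group of `ℝ`-algebra automorphisms of `S` (multiplication = composition).
-/

set_option autoImplicit false

noncomputable section

namespace Pool.Agent.H81.MI

open PowerSeries

/-- formal power series -/
abbrev S := PowerSeries ℝ

/-- automorphisms of `ℝ⟦X⟧` -/
abbrev Au := S ≃ₐ[ℝ] S

/-- derivative -/
def D (f : S) : S := PowerSeries.derivative ℝ f

/-- displacement -/
def A (g : Au) : S := g X - X

/-- action on vector fields `a d/dX` -/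
def T (g : Au) (a : S) : S := g a * (D (g X))⁻¹

/-- exact order `n` -/
def Ex (n : ℕ) (g : Au) : Prop := (X : S) ^ (n + 1) ∣ A g ∧ coeff (n + 1) (A g) ≠ 0

/-- bracket of vector fields -/
def br (a b : S) : S := a * D b - D a * b

/-- Wronskian -/
def Wron (a b c : S) : S :=
  a * (D b * D (D c) - D c * D (D b)) - b * (D a * D (D c) - D c * D (D a)) +
    c * (D a * D (D b) - D b * D (D a))

section words

variable {G : Type} [Group G]

/-- the letter `x` or `x⁻¹` -/
def ltr (x : G) (b : Bool) : G := if b then x else x⁻¹

/-- value of the mixed word `x^{±1} c₁ x^{±1} c₂ ⋯` -/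
def ev (x : G) : List (Bool × G) → G
  | [] => 1
  | p :: l => ltr x p.1 * p.2 * ev x l

/-- the conjugators `v_i` with their signs -/
def vs (x : G) : List (Bool × G) → List (Bool × G)
  | [] => []
  | p :: l => (p.1, if p.1 then x else 1) :: (vs x l).map fun q => (q.1, ltr x p.1 * p.2 * q.2)

/-- reduced words -/
def Red : List (Bool × G) → Prop
  | [] => True
  | [_] => True
  | p :: q :: l => (p.2 = 1 → p.1 = q.1) ∧ Red (q :: l)

end words

/-- the sign -/
def eps (b : Bool) : ℝ := if b then 1 else -1

end Pool.Agent.H81.MI
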