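import Pool.Agent.H81.MI.Defs
import Pool.Agent.H81.NL.JetA

/-!
# Module Germ: from analytic germs to automorphisms of `ℝ⟦X⟧`

`ρ g` = substitution of the Taylor series of `h g⁻¹`.
-/

set_option autoImplicit false

noncomputable section

namespace Pool.Agent.H81.MI

open PowerSeries Filter Topology Pool.Agent.H81.NL

/-- `F` is the Taylor series of `f` at `0`. -/
def GermTay (f : ℝ → ℝ) (F : S) : Prop := ∀ N, IsJet N f (trunc N F)

theorem Germ_exists {f : ℝ → ℝ} (hf : AnalyticAt ℝ f 0) : ∃ F : S, GermTay f F := by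
  choose P hP using fun N => exists_isJet hf N
  refine ⟨PowerSeries.mk fun k => (P (k + 1)).coeff k, fun N => ?_⟩
  refine (hP N).of_dvd ?_
  rw [Polynomial.X_pow_dvd_iff]
  intro k hk
  rw [Polynomial.coeff_sub, PowerSeries.coeff_trunc, if_pos hk, PowerSeries.coeff_mk]
  have h := ((hP N).mono (show k + 1 ≤ N from hk)).unique (hP (k + 1))
  have h2 := (Polynomial.X_pow_dvd_iff.mp h) k (Nat.lt_succ_self k)
  rwa [Polynomial.coeff_sub] at h2

theorem Germ_unique {f : ℝ → ℝ} {F F' : S} (h : GermTay f F) (h' : GermTay f F') : F = F' := by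
  ext k
  have h2 := (Polynomial.X_pow_dvd_iff.mp ((h (k + 1)).unique (h' (k + 1)))) k (Nat.lt_succ_self k)
  rw [Polynomial.coeff_sub, coeff_trunc, coeff_trunc, if_pos (Nat.lt_succ_self k),
    if_pos (Nat.lt_succ_self k), sub_eq_zero] at h2
  exact h2

theorem Germ_congr {f g : ℝ → ℝ} {F : S} (h : GermTay f F) (e : f =ᶠ[𝓝 0] g) : GermTay g F :=
  fun N => (h N).congr e

theorem Germ_poly (P : Polynomial ℝ) : GermTay (fun x => P.eval x) (P : S) := by
  intro N
  refine (isJet_poly N P).of_dvd ?_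
  rw [Polynomial.X_pow_dvd_iff]
  intro k hk
  rw [Polynomial.coeff_sub, PowerSeries.coeff_trunc, if_pos hk, Polynomial.coeff_coe, sub_self]

theorem Germ_id : GermTay id (X : S) := by
  have h := Germ_poly (Polynomial.X : Polynomial ℝ)
  rw [Polynomial.coe_X] at h
  refine Germ_congr h (Eventually.of_forall fun x => ?_)
  simp

theorem Germ_trunc_dvd (N : ℕ) (F : S) : (X : S) ^ N ∣ F - (trunc N F : Polynomial ℝ) := by
  rw [PowerSeries.X_pow_dvd_iff]
  intro m hm
  rw [map_sub, Polynomial.coeff_coe, coeff_trunc, if_pos hm, sub_self]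

theorem Germ_hs {G : S} (h : constantCoeff G = 0) : HasSubst G :=
  HasSubst.of_constantCoeff_zero' h

/-- substitution -/
def GermSub (G : S) (h : constantCoeff G = 0) : S →ₐ[ℝ] S := substAlgHom (Germ_hs h)

theorem GermSub_X (G : S) (h : constantCoeff G = 0) : GermSub G h X = G :=
  substAlgHom_X (Germ_hs h)

theorem GermSub_coe (G : S) (h : constantCoeff G = 0) (p : Polynomial ℝ) :
    GermSub G h (p : S) = Polynomial.aeval G p :=
  substAlgHom_coe (Germ_hs h) p

theorem GermSub_comp (G H : S) (h : constantCoeff G = 0) (k : constantCoeff H = 0)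
    (l : constantCoeff (GermSub G h H) = 0) (f : S) :
    GermSub G h (GermSub H k f) = GermSub (GermSub G h H) l f :=
  substAlgHom_comp_substAlgHom_apply (Germ_hs k) (Germ_hs h) f

theorem Germ_X_dvd {G : S} (h : constantCoeff G = 0) : (X : S) ∣ G :=
  PowerSeries.X_dvd_iff.mpr h

theorem Germ_coeff_sub {F G : S} (hG : constantCoeff G = 0) {N k : ℕ} (hk : k < N) :
    coeff k (GermSub G hG F) = ((trunc N F).comp (trunc N G)).coeff k := by
  obtain ⟨F', hF'⟩ := Germ_trunc_dvd N F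
  obtain ⟨G', hG'⟩ := Germ_X_dvd hG
  have h1 : (X : S) ^ N ∣ GermSub G hG F - Polynomial.aeval G (trunc N F) := by
    rw [← GermSub_coe G hG, ← map_sub, hF', map_mul, map_pow, GermSub_X]
    nth_rw 1 [hG']
    rw [mul_pow, mul_assoc]
    exact Dvd.intro _ rfl
  have h2 : (X : S) ^ N ∣ Polynomial.aeval G (trunc N F) -
      Polynomial.aeval ((trunc N G : Polynomial ℝ) : S) (trunc N F) := by
    refine (Germ_trunc_dvd N G).trans ?_
    rw [Polynomial.aeval_def, Polynomial.aeval_def, Polynomial.eval₂_eq_eval_map,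
      Polynomial.eval₂_eq_eval_map]
    exact Polynomial.sub_dvd_eval_sub _ _ _
  have h3 : Polynomial.aeval ((trunc N G : Polynomial ℝ) : S) (trunc N F) =
      (((trunc N F).comp (trunc N G) : Polynomial ℝ) : S) := by
    rw [Polynomial.comp_eq_aeval]
    exact Polynomial.aeval_algHom_apply (Polynomial.coeToPowerSeries.algHom ℝ) (trunc N G) (trunc N F)
  have h4 := dvd_add h1 h2
  rw [h3] at h4
  have h5 := (PowerSeries.X_pow_dvd_iff.mp h4) k hk
  rw [map_add, map_sub, map_sub, Polynomial.coeff_coe] at h5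
  linarith

theorem Germ_comp {f g : ℝ → ℝ} {F G : S} (hf : GermTay f F) (hg : GermTay g G) (hg0 : g 0 = 0)
    (hc : ContinuousAt g 0) (hG : constantCoeff G = 0) : GermTay (f ∘ g) (GermSub G hG F) := by
  have key : ∀ N, 1 ≤ N → IsJet N (f ∘ g) (trunc N (GermSub G hG F)) := by
    intro N hN
    refine (IsJet.comp hN (hf N) (hg N) hg0 hc).of_dvd ?_
    rw [Polynomial.X_pow_dvd_iff]
    intro k hk
    rw [Polynomial.coeff_sub, PowerSeries.coeff_trunc, if_pos hk, Germ_coeff_sub hG hk, sub_self]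
  intro N
  rcases Nat.eq_zero_or_pos N with rfl | hN
  · refine ((key 1 le_rfl).mono (Nat.zero_le 1)).of_dvd ?_
    rw [pow_zero]
    exact one_dvd _
  · exact key N hN

theorem Germ_const {f : ℝ → ℝ} {F : S} (hf : GermTay f F) (h0 : f 0 = 0) :
    constantCoeff F = 0 := by
  have h := IsJet.coeff_zero le_rfl (hf 1) h0
  rw [coeff_trunc, if_pos Nat.zero_lt_one, coeff_zero_eq_constantCoeff_apply] at h
  exact h

theorem Germ_coeff_one {f : ℝ → ℝ} {F : S} (hf : GermTay f F) : coeff 1 F = deriv f 0 := by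
  have h := IsJet.coeff_one le_rfl (hf 2)
  rw [coeff_trunc, if_pos (by norm_num)] at h
  exact h

theorem Germ_eventually_id {f : ℝ → ℝ} (ha : AnalyticAt ℝ f 0) (h : GermTay f (X : S)) :
    f =ᶠ[𝓝 0] id := by
  refine eventually_id ha fun N => (h N).of_dvd ?_
  rw [Polynomial.X_pow_dvd_iff]
  intro k hk
  rw [Polynomial.coeff_sub, PowerSeries.coeff_trunc, if_pos hk, ← Polynomial.coe_X,
    Polynomial.coeff_coe, sub_self]

theorem exists_rho {Γ : Type} [Group Γ] (h : Γ → ℝ → ℝ)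
    (h1 : ∀ g, AnalyticAt ℝ (h g) 0 ∧ h g 0 = 0 ∧ 0 < deriv (h g) 0)
    (h2 : ∀ g g', h (g * g') =ᶠ[𝓝 0] h g ∘ h g')
    (h3 : ∀ g, h g =ᶠ[𝓝 0] id → g = 1) :
    ∃ ρ : Γ →* Au, Function.Injective ρ ∧ ∀ g, 0 < coeff 1 (ρ g X) ∧
      coeff 1 (ρ g X) = (deriv (h g) 0)⁻¹ := by
  choose F hF using fun g => Germ_exists (h1 g).1
  have hc : ∀ g, constantCoeff (F g) = 0 := fun g => Germ_const (hF g) (h1 g).2.1
  have hmul : ∀ g g', F (g * g') = GermSub (F g') (hc g') (F g) := fun g g' =>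
    Germ_unique (hF (g * g')) (Germ_congr
      (Germ_comp (hF g) (hF g') (h1 g').2.1 (h1 g').1.continuousAt (hc g')) (h2 g g').symm)
  -- `h 1` is the identity
  have hone : h 1 =ᶠ[𝓝 0] id := by
    have e := h2 1 1
    rw [mul_one] at e
    have hs : HasStrictDerivAt (h 1) (deriv (h 1) 0) 0 := (h1 1).1.hasStrictDerivAt
    have hm := hs.map_nhds_eq (h1 1).2.2.ne'
    rw [(h1 1).2.1] at hm
    have e2 : ∀ᶠ x in 𝓝 (0 : ℝ), h 1 (h 1 x) = h 1 x := by
      filter_upwards [e] with x hx using hx.symm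
    have e3 : ∀ᶠ y in Filter.map (h 1) (𝓝 (0 : ℝ)), h 1 y = y := e2
    rw [hm] at e3
    exact e3
  have hF1 : F 1 = X := Germ_unique (hF 1) (Germ_congr Germ_id hone.symm)
  let φ : Γ →* (S →ₐ[ℝ] S) :=
    { toFun := fun g => GermSub (F g⁻¹) (hc g⁻¹)
      map_one' := by
        ext1 f
        have e : ∀ (G : S) (k : constantCoeff G = 0), G = X → GermSub G k f = f := by
          intro G k hG
          subst hG
          exact (congrFun (coe_substAlgHom (Germ_hs k)) f).trans (X_subst f)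
        exact e _ _ (by rw [inv_one, hF1])
      map_mul' := fun g g' => by
        ext1 f
        rw [AlgHom.mul_apply]
        have e : F (g * g')⁻¹ = GermSub (F g⁻¹) (hc g⁻¹) (F g'⁻¹) := by
          rw [mul_inv_rev, hmul]
        rw [GermSub_comp (F g⁻¹) (F g'⁻¹) (hc _) (hc _) (by rw [← e]; exact hc _)]
        congr 1
        simp only [e] }
  have hX : ∀ g, ((AlgEquiv.algHomUnitsEquiv ℝ S) (φ.toHomUnits g)) X = F g⁻¹ := fun g =>
    GermSub_X (F g⁻¹) (hc g⁻¹)
  refine ⟨(AlgEquiv.algHomUnitsEquiv ℝ S).toMonoidHom.comp φ.toHomUnits, ?_, fun g => ?_⟩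
  · rw [injective_iff_map_eq_one]
    intro g hg
    have e1 : F g⁻¹ = X := by
      rw [← hX g]
      exact congrArg (fun (a : Au) => a X) hg
    have e2 : GermTay (h g⁻¹) (X : S) := by
      rw [← e1]
      exact hF g⁻¹
    exact inv_eq_one.mp (h3 g⁻¹ (Germ_eventually_id (h1 g⁻¹).1 e2))
  · have e0 : ((AlgEquiv.algHomUnitsEquiv ℝ S).toMonoidHom.comp φ.toHomUnits) g X = F g⁻¹ := hX g
    rw [e0, Germ_coeff_one (hF g⁻¹)]
    refine ⟨(h1 g⁻¹).2.2, ?_⟩
    have e1 : h g ∘ h g⁻¹ =ᶠ[𝓝 0] id := by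
      have := h2 g g⁻¹
      rw [mul_inv_cancel] at this
      exact this.symm.trans hone
    have e2 : deriv (h g ∘ h g⁻¹) 0 = 1 := by
      rw [e1.deriv_eq]
      exact deriv_id 0
    have e3 : deriv (h g ∘ h g⁻¹) 0 = deriv (h g) 0 * deriv (h g⁻¹) 0 := by
      have d1 : DifferentiableAt ℝ (h g) (h g⁻¹ 0) := by
        rw [(h1 g⁻¹).2.1]
        exact (h1 g).1.differentiableAt
      rw [deriv_comp (0 : ℝ) d1 (h1 g⁻¹).1.differentiableAt, (h1 g⁻¹).2.1]
    rw [e3] at e2
    exact eq_inv_of_mul_eq_one_right e2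

end Pool.Agent.H81.MI
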