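import Pool.Agent.H81.MI.Ser

/-!
# Module Lin: the groups `J n` and the linearisation modulo `X ^ (2 n + 1)`

Hints. `depth`: `f = X ^ m * f₁`; `(g X)^m - X^m` is divisible by `(g X - X) * X^(m-1)`
(`Commute.geom_sum₂`/`sub_dvd_pow_sub_pow` refined, or induction on `m`), `g f₁ - f₁` by `X^(n+1)`.
`A_conj`: with `y = v⁻¹ X`: `A (v g v⁻¹) = v (g y - y)`, `g y - y ≡ D y * A g` modulo `X^(2n+1)` (true for
powers of `X`, linear, filtration), and `v (D y) = (D (v X))⁻¹` by the chain rule.
-/

set_option autoImplicit false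

noncomputable section

namespace Pool.Agent.H81.MI

open PowerSeries

/-- automorphisms with `X ^ (n+1) ∣ g X - X` -/
def J (n : ℕ) : Subgroup Au where
  carrier := {g | (X : S) ^ (n + 1) ∣ A g}
  mul_mem' := by
    intro g h hg hh
    have e : A (g * h) = g (A h) + A g := by simp [A]
    simp only [Set.mem_setOf_eq] at *
    rw [e]
    exact dvd_add (dvd_map hh) hg
  one_mem' := by simp [A]
  inv_mem' := by
    intro g hg
    have e : A g⁻¹ = - g⁻¹ (A g) := by
      have h1 : g⁻¹ (g X) = X := by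
        have := congrArg (fun φ : Au => φ X) (inv_mul_cancel g)
        simpa using this
      simp [A, h1]
    simp only [Set.mem_setOf_eq] at *
    rw [e]
    exact (dvd_map hg).neg_right

theorem mem_J {n : ℕ} {g : Au} : g ∈ J n ↔ (X : S) ^ (n + 1) ∣ A g := Iff.rfl

theorem J_le {n m : ℕ} (h : n ≤ m) : J m ≤ J n := by
  intro g hg
  exact (pow_dvd_pow _ (Nat.succ_le_succ h)).trans hg

theorem mem_J_one_iff {g : Au} : g ∈ J 1 ↔ coeff 1 (g X) = 1 := by
  rw [mem_J, PowerSeries.X_pow_dvd_iff]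
  have h0 : coeff 0 (g X) = 0 := by
    have h := X_dvd g
    rw [PowerSeries.X_dvd_iff] at h
    simpa using h
  constructor
  · intro h
    have h1 := h 1 (by norm_num)
    simp only [A, map_sub, PowerSeries.coeff_one_X] at h1
    linarith
  · intro h m hm
    have h2 : m = 0 ∨ m = 1 := by omega
    rcases h2 with rfl | rfl
    · simp only [A, map_sub, h0, PowerSeries.coeff_zero_X, sub_zero]
    · simp only [A, map_sub, h, PowerSeries.coeff_one_X, sub_self]

/-- constant term plus `X` times something -/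
theorem Lin_split (f : S) : ∃ (a : ℝ) (f' : S), f = algebraMap ℝ S a + X * f' := by
  refine ⟨constantCoeff f, PowerSeries.mk fun p => coeff (p + 1) f, ?_⟩
  have h := PowerSeries.sub_const_eq_X_mul_shift f
  rw [← h]
  have h2 : (algebraMap ℝ S) (constantCoeff f) = C (constantCoeff f) := rfl
  rw [h2]
  ring

theorem Lin_gX (g : Au) : g X = X + A g := by
  simp [A]

theorem depth_aux {n : ℕ} {g : Au} (hg : g ∈ J n) (k : ℕ) :
    ∀ f : S, (X : S) ^ (min k (n + 1)) ∣ g f - f := by
  induction k with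
  | zero => intro f; simp
  | succ k ih =>
    intro f
    obtain ⟨a, f', rfl⟩ := Lin_split f
    have e : g (algebraMap ℝ S a + X * f') - (algebraMap ℝ S a + X * f') =
        A g * g f' + X * (g f' - f') := by
      rw [map_add, map_mul, AlgEquiv.commutes, Lin_gX]
      ring
    rw [e]
    refine dvd_add ?_ ?_
    · exact Dvd.dvd.mul_right ((pow_dvd_pow _ (min_le_right _ _)).trans hg) _
    · have h1 : (X : S) ^ (min k (n + 1) + 1) ∣ X * (g f' - f') := by
        rw [pow_succ, mul_comm]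
        exact mul_dvd_mul_left _ (ih f')
      exact (pow_dvd_pow _ (by omega)).trans h1

theorem depth' {n : ℕ} {g : Au} (hg : g ∈ J n) (f : S) : (X : S) ^ (n + 1) ∣ g f - f := by
  have h := depth_aux hg (n + 1) f
  rwa [min_self] at h

theorem depth {n m : ℕ} {g : Au} (hg : g ∈ J n) {f : S} (hf : (X : S) ^ m ∣ f) :
    (X : S) ^ (m + n) ∣ g f - f := by
  induction m generalizing f with
  | zero =>
    rw [zero_add]
    exact (pow_dvd_pow _ (Nat.le_succ n)).trans (depth' hg f)
  | succ m ih =>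
    obtain ⟨f1, rfl⟩ := hf
    have h1 := ih (f := X ^ m * f1) (Dvd.intro _ rfl)
    have e : g (X ^ (m + 1) * f1) - X ^ (m + 1) * f1 =
        A g * g (X ^ m * f1) + X * (g (X ^ m * f1) - X ^ m * f1) := by
      have e1 : (X : S) ^ (m + 1) * f1 = X * (X ^ m * f1) := by ring
      rw [e1, map_mul g X, Lin_gX]
      ring
    rw [e]
    refine dvd_add ?_ ?_
    · have h2 : (X : S) ^ m ∣ g (X ^ m * f1) := dvd_map (Dvd.intro _ rfl)
      have h3 := mul_dvd_mul (mem_J.1 hg) h2
      rw [← pow_add] at h3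
      exact (pow_dvd_pow _ (by omega)).trans h3
    · have h2 : (X : S) ^ (m + n + 1) ∣ X * (g (X ^ m * f1) - X ^ m * f1) := by
        rw [pow_succ, mul_comm]
        exact mul_dvd_mul_left _ h1
      exact (pow_dvd_pow _ (by omega)).trans h2

/-- first order Taylor -/
theorem taylor_aux {n : ℕ} {g : Au} (hg : g ∈ J n) (k : ℕ) :
    ∀ f : S, (X : S) ^ (min k (2 * n + 1)) ∣ g f - f - D f * A g := by
  induction k with
  | zero => intro f; simp
  | succ k ih =>
    intro f
    obtain ⟨a, f', rfl⟩ := Lin_split f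
    have hD : D (algebraMap ℝ S a + X * f') = f' + X * D f' := by
      rw [D_add, D_mul, D_X]
      have h0 : D (algebraMap ℝ S a) = 0 := by
        unfold D
        exact Derivation.map_algebraMap _ _
      rw [h0]
      ring
    have e : g (algebraMap ℝ S a + X * f') - (algebraMap ℝ S a + X * f') -
        D (algebraMap ℝ S a + X * f') * A g =
        A g * (g f' - f') + X * (g f' - f' - D f' * A g) := by
      rw [hD, map_add, map_mul, AlgEquiv.commutes, Lin_gX]
      ring
    rw [e]
    refine dvd_add ?_ ?_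
    · have h3 := mul_dvd_mul (mem_J.1 hg) (depth' hg f')
      rw [← pow_add] at h3
      exact (pow_dvd_pow _ (by omega)).trans h3
    · have h1 : (X : S) ^ (min k (2 * n + 1) + 1) ∣ X * (g f' - f' - D f' * A g) := by
        rw [pow_succ, mul_comm]
        exact mul_dvd_mul_left _ (ih f')
      exact (pow_dvd_pow _ (by omega)).trans h1

theorem taylor {n : ℕ} {g : Au} (hg : g ∈ J n) (f : S) :
    (X : S) ^ (2 * n + 1) ∣ g f - f - D f * A g := by
  have h := taylor_aux hg (2 * n + 1) f
  rwa [min_self] at h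

theorem Lin_A_conj_eq (g v : Au) : A (v * g * v⁻¹) = v (g (v⁻¹ X) - v⁻¹ X) := by
  have h1 : v (v⁻¹ X) = X := by
    have := congrArg (fun φ : Au => φ X) (mul_inv_cancel v)
    simpa using this
  simp [A, h1]

theorem J_conj {n : ℕ} {g : Au} (hg : g ∈ J n) (v : Au) : v * g * v⁻¹ ∈ J n := by
  rw [mem_J, Lin_A_conj_eq]
  exact dvd_map (depth' hg _)

theorem A_mul {n : ℕ} {g h : Au} (hg : g ∈ J n) (hh : h ∈ J n) :
    (X : S) ^ (2 * n + 1) ∣ A (g * h) - (A g + A h) := by
  have e : A (g * h) - (A g + A h) = g (A h) - A h := by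
    have e : A (g * h) = g (A h) + A g := by simp [A]
    rw [e]
    ring
  rw [e]
  have h1 := depth hg (mem_J.1 hh)
  exact (pow_dvd_pow _ (by omega)).trans h1

theorem A_inv {n : ℕ} {g : Au} (hg : g ∈ J n) : (X : S) ^ (2 * n + 1) ∣ A g⁻¹ + A g := by
  have e : A g⁻¹ + A g = - (g⁻¹ (A g) - A g) := by
    have e : A g⁻¹ = - g⁻¹ (A g) := by
      have h1 : g⁻¹ (g X) = X := by
        have := congrArg (fun φ : Au => φ X) (inv_mul_cancel g)
        simpa using this
      simp [A, h1]
    rw [e]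
    ring
  rw [e]
  have h1 := depth ((J n).inv_mem hg) (mem_J.1 hg)
  exact ((pow_dvd_pow _ (by omega)).trans h1).neg_right

theorem A_conj {n : ℕ} {g : Au} (hg : g ∈ J n) (v : Au) :
    (X : S) ^ (2 * n + 1) ∣ A (v * g * v⁻¹) - T v (A g) := by
  have h1 : v (v⁻¹ X) = X := by
    have := congrArg (fun φ : Au => φ X) (mul_inv_cancel v)
    simpa using this
  have h2 : v (D (v⁻¹ X)) = (D (v X))⁻¹ := by
    have h3 := chain v (v⁻¹ X)
    rw [h1, D_X] at h3
    have h4 := DgX_inv v
    calc v (D (v⁻¹ X)) = v (D (v⁻¹ X)) * (D (v X) * (D (v X))⁻¹) := by rw [h4, mul_one]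
      _ = (v (D (v⁻¹ X)) * D (v X)) * (D (v X))⁻¹ := by ring
      _ = (D (v X))⁻¹ := by rw [← h3, one_mul]
  have e : A (v * g * v⁻¹) - T v (A g) = v (g (v⁻¹ X) - v⁻¹ X - D (v⁻¹ X) * A g) := by
    rw [Lin_A_conj_eq, map_sub v _ (D (v⁻¹ X) * A g), map_mul v (D (v⁻¹ X)), h2]
    unfold T
    ring
  rw [e]
  exact dvd_map (taylor hg _)

theorem A_list {n : ℕ} {g : Au} (hg : g ∈ J n) (l : List (Bool × Au)) :
    (X : S) ^ (2 * n + 1) ∣ A ((l.map fun p => p.2 * ltr g p.1 * p.2⁻¹).prod) -
      (l.map fun p => eps p.1 • T p.2 (A g)).sum := by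
  have hmem : ∀ l : List (Bool × Au), (l.map fun p => p.2 * ltr g p.1 * p.2⁻¹).prod ∈ J n := by
    intro l
    apply Subgroup.list_prod_mem
    intro x hx
    rw [List.mem_map] at hx
    obtain ⟨p, -, rfl⟩ := hx
    apply J_conj
    unfold ltr
    split_ifs
    · exact hg
    · exact (J n).inv_mem hg
  induction l with
  | nil => simp [A]
  | cons p l ih =>
    rw [List.map_cons, List.prod_cons, List.map_cons, List.sum_cons]
    have hl : ltr g p.1 ∈ J n := by
      unfold ltr
      split_ifs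
      · exact hg
      · exact (J n).inv_mem hg
    have h1 := A_mul (J_conj hl p.2) (hmem l)
    have h2 := A_conj hl p.2
    have h3 : (X : S) ^ (2 * n + 1) ∣ T p.2 (A (ltr g p.1)) - eps p.1 • T p.2 (A g) := by
      unfold ltr eps
      split_ifs
      · simp
      · have h4 := A_inv hg
        have h5 : T p.2 (A g⁻¹) - (-1 : ℝ) • T p.2 (A g) = T p.2 (A g⁻¹ + A g) := by
          rw [T_add]
          simp
        rw [h5]
        exact T_dvd_iff.2 h4
    have e : A (p.2 * ltr g p.1 * p.2⁻¹ * (l.map fun p => p.2 * ltr g p.1 * p.2⁻¹).prod) -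
        (eps p.1 • T p.2 (A g) + (l.map fun p => eps p.1 • T p.2 (A g)).sum) =
        (A (p.2 * ltr g p.1 * p.2⁻¹ * (l.map fun p => p.2 * ltr g p.1 * p.2⁻¹).prod) -
          (A (p.2 * ltr g p.1 * p.2⁻¹) + A ((l.map fun p => p.2 * ltr g p.1 * p.2⁻¹).prod))) +
        (A (p.2 * ltr g p.1 * p.2⁻¹) - T p.2 (A (ltr g p.1))) +
        (T p.2 (A (ltr g p.1)) - eps p.1 • T p.2 (A g)) +
        (A ((l.map fun p => p.2 * ltr g p.1 * p.2⁻¹).prod) -
          (l.map fun p => eps p.1 • T p.2 (A g)).sum) := by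
      ring
    rw [e]
    exact dvd_add (dvd_add (dvd_add h1 h2) h3) ih

end Pool.Agent.H81.MI
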