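import Pool.Agent.H81.MI.Lin

/-!
# Module Log: logarithms of unipotent operators

`Uni U`: `U - 1` raises the order. `lg U f = ∑_{j ≥ 0} (-1)^j/(j+1) (U-1)^(j+1) f`, coefficientwise a finite sum.

Key fact: for fixed `f` and `M` and `K ≥ M`, `coeff M (U^k f) = ∑_{j ≤ K} choose k j * coeff M ((U-1)^j f)`
for all `k : ℕ`; so it is the value at `k` of the real polynomial
`p = ∑ C (coeff M ((U-1)^j f)) * B_j`, `B_j = (1/j!) X (X-1) ⋯ (X-j+1)` (`descPochhammer`), and
`p.derivative.eval 0 = coeff M (lg U f)` (`B_j'(0) = (-1)^(j-1)/j`). Bilinear lemmas: the coefficients of both sides of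
`U^k a * D (V^k f) = W^k (a * D f)` are polynomials in `k`, take the derivative at `0`.
-/

set_option autoImplicit false

noncomputable section

namespace Pool.Agent.H81.MI

open PowerSeries

/-- unipotent operators -/
def Uni (U : S →ₗ[ℝ] S) : Prop := ∀ (m : ℕ) (f : S), (X : S) ^ m ∣ f → (X : S) ^ (m + 1) ∣ U f - f

/-- logarithm -/
def lg (U : S →ₗ[ℝ] S) (f : S) : S :=
  PowerSeries.mk fun M => ∑ j ∈ Finset.range (M + 1),
    ((-1 : ℝ) ^ j / (j + 1)) * coeff M (((U - 1) ^ (j + 1)) f)

/-- an automorphism as a linear map -/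
def CL (g : Au) : S →ₗ[ℝ] S := g.toLinearMap

/-- the action on vector fields as a linear map -/
def TL (g : Au) : S →ₗ[ℝ] S where
  toFun := T g
  map_add' := T_add g
  map_smul' := fun r a => T_smul g r a

theorem Log_pow_dvd {U : S →ₗ[ℝ] S} (hU : Uni U) {m : ℕ} {f : S} (hf : (X : S) ^ m ∣ f) (j : ℕ) :
    (X : S) ^ (m + j) ∣ ((U - 1) ^ j) f := by
  induction j with
  | zero => simpa using hf
  | succ j ih =>
    rw [pow_succ', Module.End.mul_apply]
    have := hU (m + j) _ ih
    simpa [LinearMap.sub_apply, add_assoc] using this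

theorem Log_coeff_zero {U : S →ₗ[ℝ] S} (hU : Uni U) (f : S) {M j : ℕ} (h : M < j) :
    coeff M (((U - 1) ^ j) f) = 0 := by
  have := Log_pow_dvd hU (m := 0) (f := f) (by simp) j
  rw [zero_add] at this
  exact X_pow_dvd_iff.mp this M h

theorem Log_coeff_lg (U : S →ₗ[ℝ] S) (f : S) (M : ℕ) :
    coeff M (lg U f) = ∑ j ∈ Finset.range (M + 1),
      ((-1 : ℝ) ^ j / (j + 1)) * coeff M (((U - 1) ^ (j + 1)) f) := by
  simp [lg]

/-- closed invariant subspaces are invariant under the logarithm -/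
theorem lg_mem {U : S →ₗ[ℝ] S} (hU : Uni U) {V : Submodule ℝ S} {N : ℕ}
    (hN : ∀ f : S, (X : S) ^ N ∣ f → f ∈ V) (hV : ∀ a ∈ V, U a ∈ V) {a : S} (ha : a ∈ V) :
    lg U a ∈ V := by
  have hpow : ∀ j : ℕ, ((U - 1) ^ j : S →ₗ[ℝ] S) a ∈ V := by
    intro j
    induction j with
    | zero => simpa using ha
    | succ j ih =>
      rw [pow_succ', Module.End.mul_apply, LinearMap.sub_apply]
      exact V.sub_mem (hV _ ih) (by simpa using ih)
  set s : S := ∑ j ∈ Finset.range N, ((-1 : ℝ) ^ j / (j + 1)) • ((U - 1) ^ (j + 1)) a with hs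
  have hsV : s ∈ V := V.sum_mem fun j _ => V.smul_mem _ (hpow _)
  have hd : (X : S) ^ N ∣ lg U a - s := by
    rw [X_pow_dvd_iff]
    intro M hM
    rw [map_sub, Log_coeff_lg, hs, map_sum, sub_eq_zero]
    have : Finset.range (M + 1) ⊆ Finset.range N := by
      intro j hj
      simp only [Finset.mem_range] at *
      omega
    rw [← Finset.sum_subset this]
    · refine Finset.sum_congr rfl fun j _ => ?_
      simp
    · intro j _ hj
      simp only [Finset.mem_range, not_lt] at hj
      have := Log_coeff_zero hU a (M := M) (j := j + 1) (by omega)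
      rw [map_smul, this, smul_zero]
  have := V.add_mem (hN _ hd) hsV
  simpa using this

theorem lg_dvd {U : S →ₗ[ℝ] S} (hU : Uni U) {m : ℕ} {f : S} (hf : (X : S) ^ m ∣ f) :
    (X : S) ^ m ∣ lg U f := by
  rw [X_pow_dvd_iff]
  intro M hM
  rw [Log_coeff_lg]
  refine Finset.sum_eq_zero fun j _ => ?_
  have h1 := Log_pow_dvd hU hf (j + 1)
  rw [X_pow_dvd_iff.mp h1 M (by omega), mul_zero]

theorem lg_add (U : S →ₗ[ℝ] S) (f h : S) : lg U (f + h) = lg U f + lg U h := by
  ext M
  simp only [Log_coeff_lg, map_add, mul_add, Finset.sum_add_distrib]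

theorem lg_smul (U : S →ₗ[ℝ] S) (r : ℝ) (f : S) : lg U (r • f) = r • lg U f := by
  ext M
  simp only [Log_coeff_lg, map_smul, smul_eq_mul, Finset.mul_sum]
  refine Finset.sum_congr rfl fun j _ => ?_
  ring

/-- the binomial polynomial -/
def Log_B (j : ℕ) : Polynomial ℝ := Polynomial.C ((j.factorial : ℝ)⁻¹) * descPochhammer ℝ j

theorem Log_B_eval (j k : ℕ) : (Log_B j).eval (k : ℝ) = (k.choose j : ℝ) := by
  have h1 : (descPochhammer ℝ j).eval (k : ℝ) = ((k.descFactorial j : ℕ) : ℝ) :=
    descPochhammer_eval_eq_descFactorial ℝ k j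
  have h2 : (j.factorial : ℝ) ≠ 0 := by positivity
  rw [Log_B, Polynomial.eval_mul, Polynomial.eval_C, h1, Nat.descFactorial_eq_factorial_mul_choose]
  push_cast
  field_simp

theorem Log_desc_neg (j : ℕ) : (descPochhammer ℝ j).eval (-1 : ℝ) = (-1) ^ j * j.factorial := by
  induction j with
  | zero => simp
  | succ j ih =>
    rw [descPochhammer_succ_right, Polynomial.eval_mul, ih]
    simp only [Polynomial.eval_sub, Polynomial.eval_X, Polynomial.eval_natCast, Nat.factorial_succ]
    push_cast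
    ring

theorem Log_B_deriv (j : ℕ) :
    (Polynomial.derivative (Log_B (j + 1))).eval 0 = (-1 : ℝ) ^ j / (j + 1) := by
  have h2 : ((j + 1).factorial : ℝ) ≠ 0 := by positivity
  have h3 : ((j : ℝ) + 1) ≠ 0 := by positivity
  rw [Log_B, Polynomial.derivative_C_mul, Polynomial.eval_mul, Polynomial.eval_C,
    descPochhammer_succ_left, Polynomial.derivative_mul, Polynomial.eval_add, Polynomial.eval_mul,
    Polynomial.eval_mul, Polynomial.derivative_X, Polynomial.eval_X, Polynomial.eval_comp]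
  simp only [Polynomial.eval_one, one_mul, Polynomial.eval_sub, Polynomial.eval_X, zero_sub,
    zero_mul, add_zero, Log_desc_neg]
  rw [Nat.factorial_succ]
  push_cast
  have h4 : (j.factorial : ℝ) ≠ 0 := by positivity
  field_simp

theorem Log_B_deriv_zero : Polynomial.derivative (Log_B 0) = 0 := by
  simp [Log_B]

/-- the polynomial `k ↦ coeff M (U^k f)` -/
def Log_p (U : S →ₗ[ℝ] S) (f : S) (M : ℕ) : Polynomial ℝ :=
  ∑ j ∈ Finset.range (M + 1 + 1), Polynomial.C (coeff M (((U - 1) ^ j) f)) * Log_B j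

theorem Log_p_eval {U : S →ₗ[ℝ] S} (hU : Uni U) (f : S) (M k : ℕ) :
    (Log_p U f M).eval (k : ℝ) = coeff M ((U ^ k) f) := by
  have h1 : U ^ k = ∑ j ∈ Finset.range (k + 1), (k.choose j) • (U - 1) ^ j := by
    have h := (Commute.one_right (U - 1)).add_pow k
    simp only [sub_add_cancel, one_pow, mul_one] at h
    rw [h]
    refine Finset.sum_congr rfl fun j _ => ?_
    rw [nsmul_eq_mul, Nat.cast_comm]
  have h2 : coeff M ((U ^ k) f) =
      ∑ j ∈ Finset.range (k + 1), (k.choose j : ℝ) * coeff M (((U - 1) ^ j) f) := by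
    rw [h1, LinearMap.sum_apply, map_sum]
    refine Finset.sum_congr rfl fun j _ => ?_
    rw [LinearMap.smul_apply, map_nsmul, nsmul_eq_mul]
  rw [h2, Log_p, Polynomial.eval_finsetSum]
  have h3 : ∀ N, M + 1 + 1 ≤ N → ∑ j ∈ Finset.range (M + 1 + 1),
      (Polynomial.C (coeff M (((U - 1) ^ j) f)) * Log_B j).eval (k : ℝ) =
      ∑ j ∈ Finset.range N, (k.choose j : ℝ) * coeff M (((U - 1) ^ j) f) := by
    intro N hN
    have hsub : Finset.range (M + 1 + 1) ⊆ Finset.range N := by
      intro j hj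
      simp only [Finset.mem_range] at *
      omega
    rw [← Finset.sum_subset hsub]
    · refine Finset.sum_congr rfl fun j _ => ?_
      rw [Polynomial.eval_mul, Polynomial.eval_C, Log_B_eval, mul_comm]
    · intro j _ hj
      simp only [Finset.mem_range, not_lt] at hj
      rw [Log_coeff_zero hU f (by omega), mul_zero]
  rw [h3 (M + 1 + 1 + (k + 1)) (by omega)]
  symm
  apply Finset.sum_subset
  · intro j hj
    simp only [Finset.mem_range] at *
    omega
  · intro j _ hj
    simp only [Finset.mem_range, not_lt] at hj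
    rw [Nat.choose_eq_zero_of_lt (by omega), Nat.cast_zero, zero_mul]

theorem Log_p_zero {U : S →ₗ[ℝ] S} (hU : Uni U) (f : S) (M : ℕ) :
    (Log_p U f M).eval 0 = coeff M f := by
  have := Log_p_eval hU f M 0
  simpa using this

theorem Log_p_deriv (U : S →ₗ[ℝ] S) (f : S) (M : ℕ) :
    (Polynomial.derivative (Log_p U f M)).eval 0 = coeff M (lg U f) := by
  rw [Log_p, Polynomial.derivative_sum, Polynomial.eval_finsetSum, Finset.sum_range_succ',
    Log_coeff_lg]
  simp only [Polynomial.derivative_C_mul, Polynomial.eval_mul, Polynomial.eval_C, Log_B_deriv,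
    Log_B_deriv_zero, Polynomial.eval_zero, mul_zero, add_zero]
  refine Finset.sum_congr rfl fun j _ => ?_
  rw [mul_comm]

/-- a bilinear operation whose coefficients are finite combinations is respected by logarithms -/
theorem Log_bil {U V W : S →ₗ[ℝ] S} (hU : Uni U) (hV : Uni V) (hW : Uni W) (β : S → S → S)
    (hβ : ∀ M, ∃ (F : Finset (ℕ × ℕ)) (c : ℕ × ℕ → ℝ) (p q : ℕ × ℕ → ℕ), ∀ a f,
      coeff M (β a f) = ∑ s ∈ F, c s * (coeff (p s) a * coeff (q s) f))
    (h : ∀ a f : S, β (U a) (V f) = W (β a f)) (a f : S) :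
    β (lg U a) f + β a (lg V f) = lg W (β a f) := by
  have hk : ∀ k : ℕ, β ((U ^ k) a) ((V ^ k) f) = (W ^ k) (β a f) := by
    intro k
    induction k with
    | zero => simp
    | succ k ih =>
      rw [pow_succ', pow_succ', pow_succ', Module.End.mul_apply, Module.End.mul_apply,
        Module.End.mul_apply, h, ih]
  ext M
  obtain ⟨F, c, p, q, hF⟩ := hβ M
  have hpoly : ∑ s ∈ F, Polynomial.C (c s) * (Log_p U a (p s) * Log_p V f (q s)) =
      Log_p W (β a f) M := by
    apply Polynomial.eq_of_infinite_eval_eq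
    refine Set.Infinite.mono (s := Set.range (fun k : ℕ => (k : ℝ))) ?_
      (Set.infinite_range_of_injective Nat.cast_injective)
    rintro _ ⟨k, rfl⟩
    simp only [Set.mem_ofPred_eq]
    rw [Log_p_eval hW, ← hk, hF, Polynomial.eval_finsetSum]
    refine Finset.sum_congr rfl fun s _ => ?_
    rw [Polynomial.eval_mul, Polynomial.eval_C, Polynomial.eval_mul, Log_p_eval hU, Log_p_eval hV]
  have hder := congrArg (fun P => (Polynomial.derivative P).eval 0) hpoly
  simp only [Log_p_deriv, Polynomial.derivative_sum, Polynomial.eval_finsetSum,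
    Polynomial.derivative_mul, Polynomial.derivative_C, Polynomial.eval_zero, zero_mul, zero_add,
    Polynomial.eval_mul, Polynomial.eval_C, Polynomial.eval_add, Log_p_zero hU,
    Log_p_zero hV] at hder
  rw [map_add, hF, hF, ← hder, ← Finset.sum_add_distrib]
  refine Finset.sum_congr rfl fun s _ => ?_
  ring

theorem lg_mul {U V W : S →ₗ[ℝ] S} (hU : Uni U) (hV : Uni V) (hW : Uni W)
    (h : ∀ a f : S, U a * V f = W (a * f)) (a f : S) :
    lg U a * f + a * lg V f = lg W (a * f) := by
  refine Log_bil hU hV hW (fun a f => a * f) ?_ h a f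
  intro M
  refine ⟨Finset.HasAntidiagonal.antidiagonal M, fun _ => 1, fun s => s.1, fun s => s.2, ?_⟩
  intro a f
  simp [coeff_mul]

theorem lg_mulD {U V W : S →ₗ[ℝ] S} (hU : Uni U) (hV : Uni V) (hW : Uni W)
    (h : ∀ a f : S, U a * D (V f) = W (a * D f)) (a f : S) :
    lg U a * D f + a * D (lg V f) = lg W (a * D f) := by
  refine Log_bil hU hV hW (fun a f => a * D f) ?_ h a f
  intro M
  refine ⟨Finset.HasAntidiagonal.antidiagonal M, fun s => (s.2 : ℝ) + 1, fun s => s.1, fun s => s.2 + 1, ?_⟩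
  intro a f
  rw [coeff_mul]
  refine Finset.sum_congr rfl fun s _ => ?_
  have : coeff s.2 (D f) = coeff (s.2 + 1) f * ((s.2 : ℝ) + 1) := by
    rw [D, coeff_derivative]
  rw [this]
  ring

end Pool.Agent.H81.MI
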