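import Pool.Agent.H81.MI.Log

/-!
# Module Log2: `log ρ(g)` is a derivation, `log T_g` is the bracket with its vector field

Hints. `lg_TL`: `lg_mul` with `U = V = W = CL g` gives Leibniz, so `lg (CL g) f = Xf g * D f` (`deriv_eq`, `lg_dvd`);
`lg_mulD` with `U = TL g`, `V = W = CL g` (`T_rel`) and `f = X`:
`lg (TL g) a * 1 + a * D (Xf g) = lg (CL g) a = Xf g * D a`.
-/

set_option autoImplicit false

noncomputable section

namespace Pool.Agent.H81.MI

open PowerSeries

theorem uni_CL {g : Au} (hg : g ∈ J 1) : Uni (CL g) := by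
  intro m f hf
  exact depth hg hf

theorem uni_TL {g : Au} (hg : g ∈ J 1) : Uni (TL g) := by
  intro m f hf
  have h1 : (X : S) ^ (m + 1) ∣ g f - f := depth hg hf
  have h2 : (X : S) ^ 1 ∣ D (A g) := D_dvd (mem_J.mp hg)
  have h3 : D (A g) = D (g X) - 1 := by rw [A, D_sub, D_X]
  have e : (TL g) f - f = (g f - f) * (D (g X))⁻¹ + f * (-(D (A g)) * (D (g X))⁻¹) := by
    have h4 := DgX_inv g
    change g f * (D (g X))⁻¹ - f = _
    rw [h3]
    linear_combination f * h4
  rw [e]
  refine dvd_add (h1.mul_right _) ?_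
  rw [pow_succ]
  refine mul_dvd_mul hf (Dvd.dvd.mul_right ?_ _)
  rw [dvd_neg]
  simpa using h2

/-- the vector field of `g` -/
def Xf (g : Au) : S := lg (CL g) X

theorem Log2_pow {k : ℕ} (hk : 1 ≤ k) {g : Au} (hg : Ex k g) (j : ℕ) :
    (X : S) ^ (k + 1 + j) ∣ ((CL g - 1) ^ (j + 1)) X := by
  have hJ : g ∈ J 1 := J_le hk (mem_J.mpr hg.1)
  have e : ((CL g - 1) ^ (j + 1)) (X : S) = ((CL g - 1) ^ j) (A g) := by
    rw [pow_succ]
    rfl
  rw [e]
  exact Log_pow_dvd (uni_CL hJ) hg.1 j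

theorem Xf_lead {k : ℕ} (hk : 1 ≤ k) {g : Au} (hg : Ex k g) :
    (X : S) ^ (k + 1) ∣ Xf g ∧ coeff (k + 1) (Xf g) ≠ 0 := by
  constructor
  · rw [X_pow_dvd_iff]
    intro M hM
    rw [Xf, Log_coeff_lg]
    refine Finset.sum_eq_zero fun j _ => ?_
    have h := X_pow_dvd_iff.mp (Log2_pow hk hg j) M (by omega)
    rw [h, mul_zero]
  · rw [Xf, Log_coeff_lg, Finset.sum_eq_single 0]
    · have e : ((CL g - 1 : S →ₗ[ℝ] S) ^ (0 + 1)) (X : S) = A g := by
        rw [zero_add, pow_one]
        rfl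
      rw [e]
      simpa using hg.2
    · intro j _ hj
      have h := X_pow_dvd_iff.mp (Log2_pow hk hg j) (k + 1) (by omega)
      rw [h, mul_zero]
    · intro h
      exact absurd (Finset.mem_range.mpr (Nat.succ_pos _)) h

/-- `log T_g` is the bracket with the vector field of `g` -/
theorem lg_TL {g : Au} (hg : g ∈ J 1) (a : S) : lg (TL g) a = br (Xf g) a := by
  have hu := uni_CL hg
  have hd : ∀ f : S, lg (CL g) f = Xf g * D f := by
    intro f
    exact deriv_eq
      { toFun := lg (CL g)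
        map_add' := lg_add (CL g)
        map_smul' := fun r f => lg_smul (CL g) r f }
      (fun f h => (lg_mul hu hu hu (fun a f => (map_mul g a f).symm) f h).symm)
      (fun m f hf => lg_dvd hu hf) f
  have h := lg_mulD (uni_TL hg) hu hu (fun a f => T_rel g a f) a X
  have hX : lg (CL g) X = Xf g := rfl
  rw [D_X, mul_one, mul_one, hX, hd] at h
  rw [br]
  linear_combination h

end Pool.Agent.H81.MI
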