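import Pool.Agent.H81.MI.Lin

/-!
# Module Pol: finitely many mixed words, each nontrivial somewhere, are nontrivial at a common point

`Pol_PF F` (F : ℕ → Au): all coefficients of `F k f` are polynomials in `k`. Closed under products
(`coeff M (F k (G k f)) = ∑_{l ≤ M} coeff l (G k f) * coeff M (F k (X^l))`), true for constants and for
`k ↦ z^k`, `z ∈ J 1` (`z - 1` raises the order, binomial theorem, finitely many terms).
`common`: induction on the list; `y k = x₁ * (x₁⁻¹ * x₂)^k`, `y 0 = x₁`, `y 1 = x₂`; a nonzero polynomial has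
finitely many zeros.
-/

set_option autoImplicit false

noncomputable section

namespace Pool.Agent.H81.MI

open PowerSeries

/-- All coefficients are polynomials in the parameter. -/
def Pol_PF (F : ℕ → Au) : Prop :=
  ∀ (f : S) (M : ℕ), ∃ p : Polynomial ℝ, ∀ k : ℕ, coeff M (F k f) = p.eval (k : ℝ)

theorem Pol_trunc (f : S) (M : ℕ) : ∃ t : S,
    f = ∑ l ∈ Finset.range (M + 1), coeff l f • (X : S) ^ l + X ^ (M + 1) * t := by
  have h : (X : S) ^ (M + 1) ∣ f - ∑ l ∈ Finset.range (M + 1), coeff l f • (X : S) ^ l := by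
    rw [X_pow_dvd_iff]
    intro m hm
    rw [map_sub, map_sum, Finset.sum_eq_single m]
    · simp [coeff_X_pow]
    · intro b _ hb
      simp [coeff_X_pow, hb.symm]
    · intro h
      exact absurd (Finset.mem_range.2 hm) h
  obtain ⟨t, ht⟩ := h
  exact ⟨t, by rw [← ht]; ring⟩

theorem Pol_coeff (g : Au) (f : S) (M : ℕ) :
    coeff M (g f) = ∑ l ∈ Finset.range (M + 1), coeff l f * coeff M (g (X ^ l)) := by
  obtain ⟨t, ht⟩ := Pol_trunc f M
  have h1 : (X : S) ^ (M + 1) ∣ g (X ^ (M + 1) * t) := dvd_map (dvd_mul_right _ _)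
  have h2 : coeff M (g (X ^ (M + 1) * t)) = 0 := (X_pow_dvd_iff.1 h1) M (Nat.lt_succ_self M)
  conv_lhs => rw [ht]
  rw [map_add, map_add, h2, add_zero, map_sum, map_sum]
  refine Finset.sum_congr rfl fun l _ => ?_
  rw [map_smul, map_smul, smul_eq_mul]

theorem Pol_PF_mul {F G : ℕ → Au} (hF : Pol_PF F) (hG : Pol_PF G) :
    Pol_PF fun k => F k * G k := by
  intro f M
  choose p hp using fun l => hG f l
  choose q hq using fun l => hF (X ^ l) M
  refine ⟨∑ l ∈ Finset.range (M + 1), p l * q l, fun k => ?_⟩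
  rw [AlgEquiv.mul_apply, Pol_coeff, Polynomial.eval_finsetSum]
  refine Finset.sum_congr rfl fun l _ => ?_
  rw [Polynomial.eval_mul, hp, hq]

theorem Pol_PF_const (g : Au) : Pol_PF fun _ => g := by
  intro f M
  exact ⟨Polynomial.C (coeff M (g f)), fun k => by rw [Polynomial.eval_C]⟩

/-- The iterated differences. -/
def Pol_dif (z : Au) : ℕ → S → S
  | 0, f => f
  | j + 1, f => Pol_dif z j (z f - f)

theorem Pol_dif_dvd {z : Au} (hz : z ∈ J 1) (j : ℕ) : ∀ {m : ℕ} {f : S}, (X : S) ^ m ∣ f →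
    (X : S) ^ (m + j) ∣ Pol_dif z j f := by
  induction j with
  | zero =>
    intro m f hf
    exact hf
  | succ j ih =>
    intro m f hf
    have h1 := ih (depth hz hf)
    have h2 : m + (j + 1) = m + 1 + j := by ring
    rw [h2]
    exact h1

theorem Pol_binom (z : Au) (k : ℕ) : ∀ f : S, (z ^ k) f =
    ∑ j ∈ Finset.range (k + 1), ((k.choose j : ℕ) : ℝ) • Pol_dif z j f := by
  induction k with
  | zero =>
    intro f
    simp [Pol_dif]
  | succ k ih =>
    intro f
    have h1 : (z ^ (k + 1)) f = (z ^ k) (z f - f) + (z ^ k) f := by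
      rw [pow_succ, AlgEquiv.mul_apply, map_sub]
      ring
    rw [h1, ih, ih]
    have h2 : ∑ j ∈ Finset.range (k + 1), ((k.choose j : ℕ) : ℝ) • Pol_dif z j (z f - f) =
        ∑ j ∈ Finset.range (k + 1), ((k.choose j : ℕ) : ℝ) • Pol_dif z (j + 1) f := rfl
    rw [h2, Finset.sum_range_succ' (fun j => (((k + 1).choose j : ℕ) : ℝ) • Pol_dif z j f) (k + 1)]
    have h3 : ∀ j, (((k + 1).choose (j + 1) : ℕ) : ℝ) • Pol_dif z (j + 1) f =
        ((k.choose j : ℕ) : ℝ) • Pol_dif z (j + 1) f +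
          ((k.choose (j + 1) : ℕ) : ℝ) • Pol_dif z (j + 1) f := by
      intro j
      rw [Nat.choose_succ_succ, Nat.cast_add, add_smul]
    rw [Finset.sum_congr rfl fun j _ => h3 j, Finset.sum_add_distrib, add_assoc]
    congr 1
    rw [Finset.sum_range_succ (fun j => ((k.choose (j + 1) : ℕ) : ℝ) • Pol_dif z (j + 1) f),
      Nat.choose_succ_self, Nat.cast_zero, zero_smul, add_zero,
      Finset.sum_range_succ' (fun j => ((k.choose j : ℕ) : ℝ) • Pol_dif z j f) k]
    simp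

theorem Pol_choose (j k : ℕ) : ((k.choose j : ℕ) : ℝ) =
    (Polynomial.C ((j.factorial : ℝ)⁻¹) * descPochhammer ℝ j).eval (k : ℝ) := by
  rw [Polynomial.eval_mul, Polynomial.eval_C, descPochhammer_eval_eq_descFactorial,
    Nat.descFactorial_eq_factorial_mul_choose, Nat.cast_mul, ← mul_assoc,
    inv_mul_cancel₀ (by exact_mod_cast Nat.factorial_ne_zero j), one_mul]

theorem Pol_PF_pow {z : Au} (hz : z ∈ J 1) : Pol_PF fun k => z ^ k := by
  intro f M
  refine ⟨∑ j ∈ Finset.range (M + 1), Polynomial.C ((j.factorial : ℝ)⁻¹) * descPochhammer ℝ j *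
    Polynomial.C (coeff M (Pol_dif z j f)), fun k => ?_⟩
  have hzero : ∀ j, M < j → coeff M (Pol_dif z j f) = 0 := by
    intro j hj
    have h1 := Pol_dif_dvd hz j (m := 0) (f := f) (by simp)
    rw [zero_add] at h1
    exact (X_pow_dvd_iff.1 h1) M hj
  have hch : ∀ j, k < j → ((k.choose j : ℕ) : ℝ) = 0 := by
    intro j hj
    rw [Nat.choose_eq_zero_of_lt hj, Nat.cast_zero]
  dsimp only
  rw [Pol_binom, map_sum, Polynomial.eval_finsetSum]
  have h1 : ∀ j, coeff M (((k.choose j : ℕ) : ℝ) • Pol_dif z j f) =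
      (Polynomial.C ((j.factorial : ℝ)⁻¹) * descPochhammer ℝ j *
        Polynomial.C (coeff M (Pol_dif z j f))).eval (k : ℝ) := by
    intro j
    rw [map_smul, smul_eq_mul, Polynomial.eval_mul, Polynomial.eval_C, ← Pol_choose]
  rw [Finset.sum_congr rfl fun j _ => h1 j]
  have h2 : ∀ N, k ≤ N → ∑ j ∈ Finset.range (N + 1), (Polynomial.C ((j.factorial : ℝ)⁻¹) *
      descPochhammer ℝ j * Polynomial.C (coeff M (Pol_dif z j f))).eval (k : ℝ) =
      ∑ j ∈ Finset.range (k + 1), (Polynomial.C ((j.factorial : ℝ)⁻¹) * descPochhammer ℝ j *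
        Polynomial.C (coeff M (Pol_dif z j f))).eval (k : ℝ) := by
    intro N hN
    symm
    apply Finset.sum_subset
    · intro j hj
      rw [Finset.mem_range] at hj ⊢
      omega
    · intro j _ hj
      rw [Finset.mem_range] at hj
      rw [← h1, map_smul, hch j (by omega), zero_smul]
  have h3 : ∀ N, M ≤ N → ∑ j ∈ Finset.range (N + 1), (Polynomial.C ((j.factorial : ℝ)⁻¹) *
      descPochhammer ℝ j * Polynomial.C (coeff M (Pol_dif z j f))).eval (k : ℝ) =
      ∑ j ∈ Finset.range (M + 1), (Polynomial.C ((j.factorial : ℝ)⁻¹) * descPochhammer ℝ j *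
        Polynomial.C (coeff M (Pol_dif z j f))).eval (k : ℝ) := by
    intro N hN
    symm
    apply Finset.sum_subset
    · intro j hj
      rw [Finset.mem_range] at hj ⊢
      omega
    · intro j _ hj
      rw [Finset.mem_range] at hj
      rw [hzero j (by omega), Polynomial.C_0, mul_zero, Polynomial.eval_zero]
  rw [← h2 (max k M) (le_max_left _ _), h3 (max k M) (le_max_right _ _)]

theorem Pol_PF_ev {F Fi : ℕ → Au} (hF : Pol_PF F) (hFi : Pol_PF Fi) (hinv : ∀ k, (F k)⁻¹ = Fi k)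
    (l : List (Bool × Au)) : Pol_PF fun k => ev (F k) l := by
  induction l with
  | nil => exact Pol_PF_const 1
  | cons p l ih =>
    have h1 : Pol_PF fun k => ltr (F k) p.1 := by
      unfold ltr
      cases p.1
      · simp only [hinv]
        exact hFi
      · exact hF
    exact Pol_PF_mul (Pol_PF_mul h1 (Pol_PF_const p.2)) ih

theorem Pol_word {x₁ x₂ : Au} (h1 : x₁ ∈ J 1) (h2 : x₂ ∈ J 1) (q : List (Bool × Au) × Au)
    (hq : ev x₁ q.1 ≠ q.2 ∨ ev x₂ q.1 ≠ q.2) : ∃ p : Polynomial ℝ, p ≠ 0 ∧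
      ∀ k : ℕ, p.eval (k : ℝ) ≠ 0 → ev (x₁ * (x₁⁻¹ * x₂) ^ k) q.1 ≠ q.2 := by
  have hz : x₁⁻¹ * x₂ ∈ J 1 := (J 1).mul_mem ((J 1).inv_mem h1) h2
  have hF : Pol_PF fun k => x₁ * (x₁⁻¹ * x₂) ^ k := Pol_PF_mul (Pol_PF_const x₁) (Pol_PF_pow hz)
  have hFi : Pol_PF fun k => ((x₁⁻¹ * x₂)⁻¹) ^ k * x₁⁻¹ :=
    Pol_PF_mul (Pol_PF_pow ((J 1).inv_mem hz)) (Pol_PF_const x₁⁻¹)
  have hev := Pol_PF_ev hF hFi (fun k => by rw [mul_inv_rev, inv_pow]) q.1
  -- a coefficient which differs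
  have hex : ∃ k0 : ℕ, ev (x₁ * (x₁⁻¹ * x₂) ^ k0) q.1 ≠ q.2 := by
    rcases hq with hq | hq
    · exact ⟨0, by rw [pow_zero, mul_one]; exact hq⟩
    · exact ⟨1, by rw [pow_one, mul_inv_cancel_left]; exact hq⟩
  obtain ⟨k0, hk0⟩ := hex
  have hX : ∃ M, coeff M ((ev (x₁ * (x₁⁻¹ * x₂) ^ k0) q.1) X) ≠ coeff M (q.2 X) := by
    by_contra hcon
    push Not at hcon
    exact hk0 (ext_X (PowerSeries.ext hcon))
  obtain ⟨M, hM⟩ := hX
  obtain ⟨p, hp⟩ := hev X M
  refine ⟨p - Polynomial.C (coeff M (q.2 X)), ?_, ?_⟩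
  · intro h0
    apply hM
    have h3 := congrArg (Polynomial.eval (k0 : ℝ)) h0
    rw [Polynomial.eval_sub, Polynomial.eval_C, Polynomial.eval_zero, ← hp] at h3
    exact sub_eq_zero.1 h3
  · intro k hk heq
    apply hk
    rw [Polynomial.eval_sub, Polynomial.eval_C, ← hp]
    change coeff M ((ev (x₁ * (x₁⁻¹ * x₂) ^ k) q.1) X) - coeff M (q.2 X) = 0
    rw [heq, sub_self]

theorem common {P : Subgroup Au} (hP : P ≤ J 1) (Ls : List (List (Bool × Au) × Au))
    (h : ∀ q ∈ Ls, ∃ x ∈ P, ev x q.1 ≠ q.2) : ∃ x ∈ P, ∀ q ∈ Ls, ev x q.1 ≠ q.2 := by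
  induction Ls with
  | nil => exact ⟨1, P.one_mem, by simp⟩
  | cons q Ls ih =>
    obtain ⟨x₁, hx₁, h1⟩ := ih fun q' hq' => h q' (List.mem_cons_of_mem _ hq')
    obtain ⟨x₂, hx₂, h2⟩ := h q List.mem_cons_self
    have key : ∀ L : List (List (Bool × Au) × Au),
        (∀ q' ∈ L, ev x₁ q'.1 ≠ q'.2 ∨ ev x₂ q'.1 ≠ q'.2) → ∃ p : Polynomial ℝ, p ≠ 0 ∧
          ∀ k : ℕ, p.eval (k : ℝ) ≠ 0 → ∀ q' ∈ L, ev (x₁ * (x₁⁻¹ * x₂) ^ k) q'.1 ≠ q'.2 := by
      intro L
      induction L with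
      | nil =>
        intro _
        exact ⟨1, one_ne_zero, by simp⟩
      | cons a L ihL =>
        intro hL
        obtain ⟨p, hp0, hp⟩ := ihL fun q' hq' => hL q' (List.mem_cons_of_mem _ hq')
        obtain ⟨r, hr0, hr⟩ := Pol_word (hP hx₁) (hP hx₂) a (hL a List.mem_cons_self)
        refine ⟨r * p, mul_ne_zero hr0 hp0, fun k hk q' hq' => ?_⟩
        rw [Polynomial.eval_mul] at hk
        rcases List.mem_cons.1 hq' with rfl | hq'
        · exact hr k (left_ne_zero_of_mul hk)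
        · exact hp k (right_ne_zero_of_mul hk) q' hq'
    obtain ⟨p, hp0, hp⟩ := key (q :: Ls) (by
      intro q' hq'
      rcases List.mem_cons.1 hq' with rfl | hq'
      · exact Or.inr h2
      · exact Or.inl (h1 q' hq'))
    have hk : ∃ k : ℕ, p.eval (k : ℝ) ≠ 0 := by
      by_contra hcon
      push Not at hcon
      apply hp0
      apply Polynomial.eq_zero_of_infinite_isRoot
      refine Set.Infinite.mono (s := Set.range fun k : ℕ => (k : ℝ)) ?_ ?_
      · rintro _ ⟨k, rfl⟩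
        exact hcon k
      · exact Set.infinite_range_of_injective Nat.cast_injective
    obtain ⟨k, hk⟩ := hk
    exact ⟨_, P.mul_mem hx₁ (P.pow_mem (P.mul_mem (P.inv_mem hx₁) hx₂) k), hp k hk⟩

end Pool.Agent.H81.MI
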