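import Pool.Agent.H81.MI.Defs

/-!
# Module Wd: combinatorics of mixed words (any group)
-/

set_option autoImplicit false

namespace Pool.Agent.H81.MI

variable {G : Type} [Group G]

theorem Wd_conj_prod (a : G) (L : List G) :
    (L.map fun u => a * u * a⁻¹).prod = a * L.prod * a⁻¹ := by
  induction L with
  | nil => simp
  | cons b L ih => rw [List.map_cons, List.prod_cons, List.prod_cons, ih]; group

theorem ev_mul (x g : G) (l : List (Bool × G)) :
    ev (x * g) l = ((vs x l).map fun p => p.2 * ltr g p.1 * p.2⁻¹).prod * ev x l := by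
  induction l with
  | nil => simp [ev, vs]
  | cons p l ih =>
    obtain ⟨b, c⟩ := p
    have h1 : ((vs x l).map ((fun p : Bool × G => p.2 * ltr g p.1 * p.2⁻¹) ∘
        (fun q : Bool × G => (q.1, ltr x b * c * q.2)))).prod =
        (ltr x b * c) * ((vs x l).map fun p => p.2 * ltr g p.1 * p.2⁻¹).prod *
          (ltr x b * c)⁻¹ := by
      rw [← Wd_conj_prod, List.map_map]
      congr 1
      apply List.map_congr_left
      intro q _
      simp only [Function.comp]
      group
    simp only [ev, vs, List.map_cons, List.prod_cons, List.map_map]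
    rw [h1, ih]
    cases b <;> simp [ltr, mul_assoc]

/-- flipping all signs -/
theorem ev_inv (x : G) (l : List (Bool × G)) :
    ev x⁻¹ l = ev x (l.map fun p => (!p.1, p.2)) := by
  induction l with
  | nil => simp [ev]
  | cons p l ih =>
    obtain ⟨b, c⟩ := p
    simp only [ev, List.map_cons]
    rw [ih]
    cases b <;> simp [ltr]

theorem Red_flip {l : List (Bool × G)} (h : Red l) : Red (l.map fun p => (!p.1, p.2)) := by
  induction l with
  | nil => simp [Red]
  | cons p l ih =>
    cases l with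
    | nil => simp [Red]
    | cons q l =>
      simp only [Red, List.map_cons] at h ih ⊢
      refine ⟨fun h2 => by rw [h.1 h2], ih h.2⟩

theorem vs_mem {H : Subgroup G} {x : G} (hx : x ∈ H) {l : List (Bool × G)}
    (hl : ∀ p ∈ l, p.2 ∈ H) : ∀ q ∈ vs x l, q.2 ∈ H := by
  induction l with
  | nil => simp [vs]
  | cons p l ih =>
    obtain ⟨b, c⟩ := p
    intro q hq
    simp only [vs, List.mem_cons, List.mem_map] at hq
    rcases hq with rfl | ⟨r, hr, rfl⟩
    · cases b <;> simp [hx, H.one_mem]
    · have h1 : r.2 ∈ H := ih (fun p hp => hl p (by simp [hp])) r hr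
      have h2 : c ∈ H := hl (b, c) (by simp)
      have h3 : ltr x b ∈ H := by
        cases b <;> simp [ltr, hx]
      exact H.mul_mem (H.mul_mem h3 h2) h1

/-- all splittings `l = m ++ q :: r`, as pairs `(m, q)` -/
def Wd_spl : List (Bool × G) → List (List (Bool × G) × (Bool × G))
  | [] => []
  | p :: l => ([], p) :: (Wd_spl l).map fun q => (p :: q.1, q.2)

omit [Group G] in
theorem Wd_spl_mem {l : List (Bool × G)} {q : List (Bool × G) × (Bool × G)}
    (hq : q ∈ Wd_spl l) : ∃ r, l = q.1 ++ q.2 :: r := by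
  induction l generalizing q with
  | nil => simp [Wd_spl] at hq
  | cons p l ih =>
    simp only [Wd_spl, List.mem_cons, List.mem_map] at hq
    rcases hq with rfl | ⟨s, hs, rfl⟩
    · exact ⟨l, rfl⟩
    · obtain ⟨r, hr⟩ := ih hs
      exact ⟨r, by rw [hr]; rfl⟩

theorem Wd_vs_eq (x : G) (l : List (Bool × G)) :
    (vs x l).map Prod.snd = (Wd_spl l).map fun q => ev x q.1 * (if q.2.1 then x else 1) := by
  induction l with
  | nil => simp [vs, Wd_spl]
  | cons p l ih =>
    have h1 : ((vs x l).map Prod.snd).map (fun g => ltr x p.1 * p.2 * g) =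
        ((Wd_spl l).map fun q => ev x q.1 * (if q.2.1 then x else 1)).map
          (fun g => ltr x p.1 * p.2 * g) := by rw [ih]
    rw [List.map_map, List.map_map] at h1
    simp only [vs, Wd_spl, List.map_cons, List.map_map, ev, one_mul]
    congr 1
    refine Eq.trans ?_ (h1.trans ?_)
    · rfl
    · apply List.map_congr_left
      intro q _
      simp [Function.comp, ev, mul_assoc]

theorem Wd_red_tail {p : Bool × G} {l : List (Bool × G)} (h : Red (p :: l)) : Red l := by
  cases l with
  | nil => simp [Red]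
  | cons q l => exact h.2

theorem Wd_red_left (m r : List (Bool × G)) (h : Red (m ++ r)) : Red m := by
  induction m with
  | nil => simp [Red]
  | cons a m ih =>
    cases m with
    | nil => simp [Red]
    | cons b m => exact ⟨h.1, ih h.2⟩

theorem Wd_red_last (m r : List (Bool × G)) (q : Bool × G) (d : G) (h : Red (m ++ q :: r)) :
    Red (m ++ [(q.1, d)]) := by
  induction m with
  | nil => simp [Red]
  | cons a m ih =>
    cases m with
    | nil => exact ⟨h.1, by simp [Red]⟩
    | cons b m => exact ⟨h.1, ih h.2⟩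

theorem Wd_ev_append (x : G) (m r : List (Bool × G)) : ev x (m ++ r) = ev x m * ev x r := by
  induction m with
  | nil => simp [ev]
  | cons a m ih => simp only [List.cons_append, ev, ih, mul_assoc]

/-- finitely many conditions imply `Q` -/
def Wd_FC (P : Subgroup G) (Q : G → Prop) : Prop :=
  ∃ Ls : List (List (Bool × G) × G), (∀ q ∈ Ls, ∃ x ∈ P, ev x q.1 ≠ q.2) ∧
    ∀ x : G, (∀ q ∈ Ls, ev x q.1 ≠ q.2) → Q x

theorem Wd_FC_true {P : Subgroup G} {Q : G → Prop} (h : ∀ x, Q x) : Wd_FC P Q :=
  ⟨[], by simp, fun x _ => h x⟩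

theorem Wd_FC_one {P : Subgroup G} {Q : G → Prop} (l : List (Bool × G)) (c : G)
    (h : ∃ x ∈ P, ev x l ≠ c) (h2 : ∀ x, ev x l ≠ c → Q x) : Wd_FC P Q :=
  ⟨[(l, c)], by simpa using h, fun x hx => h2 x (hx (l, c) (by simp))⟩

theorem Wd_FC_and {P : Subgroup G} {Q Q' : G → Prop} (h : Wd_FC P Q) (h' : Wd_FC P Q') :
    Wd_FC P (fun x => Q x ∧ Q' x) := by
  obtain ⟨L, h1, h2⟩ := h
  obtain ⟨L', h1', h2'⟩ := h'
  refine ⟨L ++ L', ?_, ?_⟩
  · intro q hq
    rcases List.mem_append.mp hq with hq | hq
    · exact h1 q hq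
    · exact h1' q hq
  · intro x hx
    exact ⟨h2 x fun q hq => hx q (by simp [hq]), h2' x fun q hq => hx q (by simp [hq])⟩

theorem Wd_FC_mono {P : Subgroup G} {Q Q' : G → Prop} (h : Wd_FC P Q)
    (hQ : ∀ x, Q x → Q' x) : Wd_FC P Q' := by
  obtain ⟨L, h1, h2⟩ := h
  exact ⟨L, h1, fun x hx => hQ x (h2 x hx)⟩

theorem Wd_FC_list {P : Subgroup G} {α : Type} (L : List α) (Q : α → G → Prop)
    (h : ∀ a ∈ L, Wd_FC P (Q a)) : Wd_FC P (fun x => ∀ a ∈ L, Q a x) := by
  induction L with
  | nil => exact Wd_FC_true (by simp)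
  | cons a L ih =>
    refine Wd_FC_mono (Wd_FC_and (h a (by simp)) (ih fun b hb => h b (by simp [hb]))) ?_
    rintro x ⟨h1, h2⟩ b hb
    rcases List.mem_cons.mp hb with rfl | hb
    · exact h1
    · exact h2 b hb

theorem Wd_pair {H P : Subgroup G} (N : ℕ)
    (IH : ∀ l' : List (Bool × G), (∀ p ∈ l', p.2 ∈ H) → Red l' → l' ≠ [] → l'.length < N →
      ∀ c : G, ∃ x ∈ P, ev x l' ≠ c) (p q : Bool × G) (m r : List (Bool × G))
    (hl : ∀ a ∈ p :: (m ++ q :: r), a.2 ∈ H) (hr : Red (p :: (m ++ q :: r)))
    (hN : m.length + 2 ≤ N) (hN2 : p.1 = false → q.1 = true → m.length + 2 < N) :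
    Wd_FC P (fun x => (if p.1 then x else 1) ≠
      ltr x p.1 * p.2 * (ev x m * (if q.1 then x else 1))) := by
  have hm : ∀ a ∈ m, a.2 ∈ H := fun a ha => hl a (by simp [ha])
  have hp : p.2 ∈ H := hl p (by simp)
  obtain ⟨b, c⟩ := p
  obtain ⟨e, d⟩ := q
  simp only at hN2 hp
  cases b <;> cases e
  · -- both inverse
    refine Wd_FC_one ((false, c) :: m) 1 (IH _ ?_ ?_ (by simp) (by simp; omega) 1) ?_
    · intro a ha
      rcases List.mem_cons.mp ha with rfl | ha
      · exact hp
      · exact hm a ha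
    · exact Wd_red_left ((false, c) :: m) ((false, d) :: r) hr
    · intro x hx h
      apply hx
      simpa [ev, ltr, mul_assoc] using h.symm
  · refine Wd_FC_one (((false, c) :: m) ++ [(true, 1)]) 1
      (IH _ ?_ ?_ (by simp) (by have := hN2 rfl rfl; simp; omega) 1) ?_
    · intro a ha
      simp only [List.cons_append, List.mem_cons, List.mem_append, List.not_mem_nil,
        or_false] at ha
      rcases ha with rfl | ha | rfl
      · exact hp
      · exact hm a ha
      · exact H.one_mem
    · exact Wd_red_last ((false, c) :: m) r (true, d) 1 hr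
    · intro x hx h
      apply hx
      rw [Wd_ev_append]
      simpa [ev, ltr, mul_assoc] using h.symm
  · by_cases hm0 : m = []
    · subst hm0
      apply Wd_FC_true
      intro x h
      have hc : c ≠ 1 := fun hc => by
        have := hr.1 hc
        simp at this
      apply hc
      simpa [ev, ltr] using h
    · refine Wd_FC_one m c⁻¹ (IH _ hm ?_ hm0 (by omega) c⁻¹) ?_
      · exact Wd_red_left m ((false, d) :: r) (Wd_red_tail hr)
      · intro x hx h
        apply hx
        have h3 : c * ev x m = 1 := by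
          simpa [ev, ltr, mul_assoc] using h
        exact (inv_eq_of_mul_eq_one_right h3).symm
  · refine Wd_FC_one (m ++ [(true, 1)]) c⁻¹
      (IH _ ?_ ?_ (by simp) (by simp; omega) c⁻¹) ?_
    · intro a ha
      simp only [List.mem_append, List.mem_singleton] at ha
      rcases ha with ha | rfl
      · exact hm a ha
      · exact H.one_mem
    · exact Wd_red_last m r (true, d) 1 (Wd_red_tail hr)
    · intro x hx h
      apply hx
      rw [Wd_ev_append]
      have h3 : c * (ev x m * x) = 1 := by
        simpa [ev, ltr, mul_assoc] using h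
      have h4 := (inv_eq_of_mul_eq_one_right h3).symm
      simpa [ev, ltr] using h4

theorem Wd_cons {P : Subgroup G} (p : Bool × G) (l : List (Bool × G))
    (h1 : ∀ q ∈ Wd_spl l, Wd_FC P (fun x => (if p.1 then x else 1) ≠
      ltr x p.1 * p.2 * (ev x q.1 * (if q.2.1 then x else 1))))
    (h2 : Wd_FC P (fun x => ((vs x l).map Prod.snd).Nodup)) :
    Wd_FC P (fun x => ((vs x (p :: l)).map Prod.snd).Nodup) := by
  refine Wd_FC_mono (Wd_FC_and (Wd_FC_list (Wd_spl l) _ h1) h2) ?_
  rintro x ⟨h3, h4⟩
  have h5 : (vs x (p :: l)).map Prod.snd = (if p.1 then x else 1) ::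
      ((vs x l).map Prod.snd).map (fun g => ltr x p.1 * p.2 * g) := by
    simp only [vs, List.map_cons, List.map_map]
    rfl
  rw [h5, List.nodup_cons]
  refine ⟨?_, h4.map (mul_right_injective _)⟩
  rw [Wd_vs_eq, List.map_map, List.mem_map]
  rintro ⟨q, hq, hq2⟩
  exact h3 q hq hq2.symm

theorem Wd_aux {H P : Subgroup G} (N : ℕ)
    (IH : ∀ l' : List (Bool × G), (∀ p ∈ l', p.2 ∈ H) → Red l' → l' ≠ [] → l'.length < N →
      ∀ c : G, ∃ x ∈ P, ev x l' ≠ c) (l : List (Bool × G)) (hl : ∀ p ∈ l, p.2 ∈ H)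
    (hr : Red l) (hN : l.length < N) :
    Wd_FC P (fun x => ((vs x l).map Prod.snd).Nodup) := by
  induction l with
  | nil => exact Wd_FC_true (by simp [vs])
  | cons p l ih =>
    simp only [List.length_cons] at hN
    refine Wd_cons p l ?_ (ih (fun a ha => hl a (by simp [ha])) (Wd_red_tail hr) (by omega))
    intro q hq
    obtain ⟨r, rfl⟩ := Wd_spl_mem hq
    simp only [List.length_append, List.length_cons] at hN
    exact Wd_pair N IH p q.2 q.1 r hl hr (by omega) (fun _ _ => by omega)

/-- Distinctness of the conjugators: if it holds that every nonempty reduced word shorter than `l` (with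
constants in `H`) is somewhere on `P` different from any given constant, and `l` is reduced and does not
both begin with `x⁻¹` and end with `x`, then finitely many such conditions imply that the
conjugators are pairwise distinct. -/
theorem vs_nodup {H P : Subgroup G} (l : List (Bool × G)) (hl : ∀ p ∈ l, p.2 ∈ H) (hr : Red l)
    (hs : ¬ ((∃ c l', l = (false, c) :: l') ∧ (∃ c l', l = l' ++ [(true, c)])))
    (IH : ∀ l' : List (Bool × G), (∀ p ∈ l', p.2 ∈ H) → Red l' → l' ≠ [] → l'.length < l.length →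
      ∀ c : G, ∃ x ∈ P, ev x l' ≠ c) :
    ∃ Ls : List (List (Bool × G) × G), (∀ q ∈ Ls, ∃ x ∈ P, ev x q.1 ≠ q.2) ∧
      ∀ x : G, (∀ q ∈ Ls, ev x q.1 ≠ q.2) → ((vs x l).map Prod.snd).Nodup := by
  change Wd_FC P (fun x => ((vs x l).map Prod.snd).Nodup)
  cases l with
  | nil => exact Wd_FC_true (by simp [vs])
  | cons p l =>
    refine Wd_cons p l ?_ (Wd_aux _ IH l (fun a ha => hl a (by simp [ha])) (Wd_red_tail hr)
      (by simp))
    intro q hq
    obtain ⟨r, rfl⟩ := Wd_spl_mem hq
    refine Wd_pair _ IH p q.2 q.1 r hl hr (by simp) ?_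
    intro h1 h2
    obtain ⟨b, c⟩ := p
    obtain ⟨m, e, d⟩ := q
    simp only at h1 h2
    subst h1 h2
    have hr0 : r ≠ [] := by
      rintro rfl
      exact hs ⟨⟨c, _, rfl⟩, ⟨d, (false, c) :: m, rfl⟩⟩
    have : 0 < r.length := List.length_pos_iff.mpr hr0
    simp
    omega

end Pool.Agent.H81.MI
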