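import Pool.Agent.H81.MI.Ser

/-!
# Module Wr: the Wronskian identity
-/

set_option autoImplicit false

noncomputable section

namespace Pool.Agent.H81.MI

open PowerSeries

/-- alternating sum over `S₃` of `ad a ad b ad c` is multiplication by `-2` times the Wronskian.
Hint: unfold `br`, push `D` inside with `D_mul`, `D_sub`, then `ring`. -/
theorem s3 (a b c z : S) :
    br a (br b (br c z)) - br a (br c (br b z)) + br b (br c (br a z)) - br b (br a (br c z)) +
      br c (br a (br b z)) - br c (br b (br a z)) = -2 * (Wron a b c * z) := by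
  simp only [br, Wron, D, map_sub, Derivation.leibniz, smul_eq_mul, map_add]
  ring

theorem Wr_d1 (n : ℕ) (s : S) :
    X * D (X ^ n * s) = X ^ n * ((n : S) * s + X * D s) := by
  simp only [D]
  rw [Derivation.leibniz, Derivation.leibniz_pow, derivative_X, smul_eq_mul, smul_eq_mul,
    nsmul_eq_mul, smul_eq_mul]
  rcases n with _ | n
  · simp
  · rw [Nat.add_sub_cancel]
    push_cast
    ring

theorem Wr_d2 (n : ℕ) (s : S) :
    X ^ 2 * D (D (X ^ n * s)) = X ^ n * ((n : S) * ((n : S) - 1)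
      * s + X * (2 * (n : S) * D s + X * D (D s))) := by
  have h1 := Wr_d1 n s
  have h2 := Wr_d1 n ((n : S) * s + X * D s)
  rw [← h1] at h2
  simp only [D] at h1 h2 ⊢
  rw [Derivation.leibniz, derivative_X, smul_eq_mul, smul_eq_mul, mul_one] at h2
  have h3 : (PowerSeries.derivative ℝ) ((n : S) * s + X * (PowerSeries.derivative ℝ) s) =
      (n : S) * (PowerSeries.derivative ℝ) s + (PowerSeries.derivative ℝ) s +
        X * (PowerSeries.derivative ℝ) ((PowerSeries.derivative ℝ) s) := by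
    rw [map_add, Derivation.leibniz, Derivation.leibniz, derivative_X, Derivation.map_natCast]
    simp only [smul_eq_mul]
    ring
  rw [h3] at h2
  linear_combination h2 - h1

/-- The leading coefficient of the Wronskian. -/
theorem Wr_lead (p q r : ℕ) (s t u : S) :
    ∃ v : S, X ^ 3 * Wron (X ^ p * s) (X ^ q * t) (X ^ r * u) =
      X ^ (p + q + r) * v ∧ constantCoeff v = constantCoeff s * constantCoeff t *
        constantCoeff u * (((q : ℝ) - p) * ((r : ℝ) - p) * ((r : ℝ) - q)) := by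
  have hs1 := Wr_d1 p s
  have hs2 := Wr_d2 p s
  have ht1 := Wr_d1 q t
  have ht2 := Wr_d2 q t
  have hu1 := Wr_d1 r u
  have hu2 := Wr_d2 r u
  set s1 := (p : S) * s + X * D s with hs1'
  set s2 := (p : S) * ((p : S) - 1) * s + X * (2 * (p : S) * D s + X * D (D s)) with hs2'
  set t1 := (q : S) * t + X * D t with ht1'
  set t2 := (q : S) * ((q : S) - 1) * t + X * (2 * (q : S) * D t + X * D (D t)) with ht2'
  set u1 := (r : S) * u + X * D u with hu1'
  set u2 := (r : S) * ((r : S) - 1) * u + X * (2 * (r : S) * D u + X * D (D u)) with hu2'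
  refine ⟨s * (t1 * u2 - t2 * u1) - t * (s1 * u2 - s2 * u1) + u * (s1 * t2 - s2 * t1), ?_, ?_⟩
  · have e : X ^ 3 * Wron (X ^ p * s) (X ^ q * t) (X ^ r * u) =
        (X ^ p * s) * ((X * D (X ^ q * t)) * (X ^ 2 * D (D (X ^ r * u))) -
          (X ^ 2 * D (D (X ^ q * t))) * (X * D (X ^ r * u))) -
        (X ^ q * t) * ((X * D (X ^ p * s)) * (X ^ 2 * D (D (X ^ r * u))) -
          (X ^ 2 * D (D (X ^ p * s))) * (X * D (X ^ r * u))) +
        (X ^ r * u) * ((X * D (X ^ p * s)) * (X ^ 2 * D (D (X ^ q * t))) -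
          (X ^ 2 * D (D (X ^ p * s))) * (X * D (X ^ q * t))) := by
      rw [Wron]; ring
    rw [e, hs1, hs2, ht1, ht2, hu1, hu2, pow_add, pow_add]
    ring
  · simp only [hs1', hs2', ht1', ht2', hu1', hu2', map_add, map_sub, map_mul, map_natCast,
      constantCoeff_X, map_one, map_ofNat, zero_mul, add_zero]
    ring

/-- leading term of the Wronskian: with `a = X^(k₁+1) a₁` etc. multiply by `X^3`. -/
theorem Wron_lead {a b c : S} {k₁ k₂ k₃ : ℕ} (h12 : k₁ < k₂) (h23 : k₂ < k₃)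
    (ha : (X : S) ^ (k₁ + 1) ∣ a) (ha' : coeff (k₁ + 1) a ≠ 0)
    (hb : (X : S) ^ (k₂ + 1) ∣ b) (hb' : coeff (k₂ + 1) b ≠ 0)
    (hc : (X : S) ^ (k₃ + 1) ∣ c) (hc' : coeff (k₃ + 1) c ≠ 0) :
    (X : S) ^ (k₁ + k₂ + k₃) ∣ Wron a b c ∧ coeff (k₁ + k₂ + k₃) (Wron a b c) ≠ 0 := by
  obtain ⟨s, rfl⟩ := ha
  obtain ⟨t, rfl⟩ := hb
  obtain ⟨u, rfl⟩ := hc
  obtain ⟨v, hv, hv'⟩ := Wr_lead (k₁ + 1) (k₂ + 1) (k₃ + 1) s t u
  have hX : (X : S) ^ 3 ≠ 0 := pow_ne_zero _ X_ne_zero
  have h1 : Wron (X ^ (k₁ + 1) * s) (X ^ (k₂ + 1) * t) (X ^ (k₃ + 1) * u) =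
      X ^ (k₁ + k₂ + k₃) * v := by
    apply mul_left_cancel₀ hX
    rw [hv, ← mul_assoc, ← pow_add]
    congr 2
    ring
  have hc0 : ∀ (n : ℕ) (w : S), coeff n (X ^ n * w) = constantCoeff w := by
    intro n w
    have h := coeff_X_pow_mul w n 0
    rw [zero_add] at h
    rw [h, coeff_zero_eq_constantCoeff_apply]
  rw [hc0] at ha' hb' hc'
  rw [h1]
  refine ⟨dvd_mul_right _ _, ?_⟩
  rw [hc0, hv']
  have h12' : (k₁ : ℝ) < k₂ := by exact_mod_cast h12
  have h23' : (k₂ : ℝ) < k₃ := by exact_mod_cast h23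
  refine mul_ne_zero (mul_ne_zero (mul_ne_zero ha' hb') hc') (mul_ne_zero (mul_ne_zero ?_ ?_) ?_)
  · push_cast
    intro h
    linarith
  · push_cast
    intro h
    linarith
  · push_cast
    intro h
    linarith

end Pool.Agent.H81.MI
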