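import Pool.Agent.H81.MI.Ord
import Pool.Agent.H81.MI.Log2
import Pool.Agent.H81.MI.Wr
import Pool.Agent.H81.MI.Pol
import Pool.Agent.H81.MI.Wd

/-!
# Module Main: no mixed identities for groups of formal automorphisms
-/

set_option autoImplicit false

noncomputable section

namespace Pool.Agent.H81.MI

open PowerSeries

/-- elimination (Vandermonde) modulo `X ^ N` -/
theorem Main_elim (N : ℕ) (y₀ : S) : ∀ (L : List (S × S)) (b₀ : S),
    (∀ k : ℕ, (X : S) ^ N ∣ y₀ ^ k * b₀ + (L.map fun p => p.1 ^ k * p.2).sum) →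
      (X : S) ^ N ∣ b₀ * (L.map fun p => y₀ - p.1).prod := by
  intro L
  induction hn : L.length generalizing L with
  | zero =>
    intro b₀ h
    have hL : L = [] := List.length_eq_zero_iff.1 hn
    subst hL
    simpa using h 0
  | succ n ih =>
    intro b₀ h
    obtain ⟨p, L', rfl⟩ : ∃ p L', L = p :: L' := by
      cases L with
      | nil => simp at hn
      | cons p L' => exact ⟨p, L', rfl⟩
    have hn' : L'.length = n := by simpa using hn
    have key := ih (L'.map fun q => (q.1, (q.1 - p.1) * q.2)) (by simpa using hn')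
      ((y₀ - p.1) * b₀) (by
        intro k
        have h1 := h (k + 1)
        have h2 := (h k).mul_left p.1
        have h3 := dvd_sub h1 h2
        have e : y₀ ^ (k + 1) * b₀ + (((p :: L').map fun q => q.1 ^ (k + 1) * q.2)).sum -
            p.1 * (y₀ ^ k * b₀ + (((p :: L').map fun q => q.1 ^ k * q.2)).sum) =
            y₀ ^ k * ((y₀ - p.1) * b₀) +
              ((L'.map fun q => (q.1, (q.1 - p.1) * q.2)).map fun q => q.1 ^ k * q.2).sum := by
          have e2 : ((L'.map fun q => (q.1, (q.1 - p.1) * q.2)).map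
              fun q => q.1 ^ k * q.2).sum = (L'.map fun q => q.1 ^ (k + 1) * q.2).sum -
                p.1 * (L'.map fun q => q.1 ^ k * q.2).sum := by
            clear hn hn' h h1 h2 h3 ih
            induction L' with
            | nil => simp
            | cons q L'' ih2 =>
              simp only [List.map_cons, List.sum_cons] at ih2 ⊢
              rw [ih2]
              ring
          rw [e2]
          simp only [List.map_cons, List.sum_cons]
          ring
        rw [e] at h3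
        exact h3)
    have e3 : ((L'.map fun q => (q.1, (q.1 - p.1) * q.2)).map fun q => y₀ - q.1).prod =
        (L'.map fun q => y₀ - q.1).prod := by
      rw [List.map_map]
      rfl
    rw [e3] at key
    simp only [List.map_cons, List.prod_cons]
    have e4 : b₀ * ((y₀ - p.1) * (L'.map fun q => y₀ - q.1).prod) =
        (y₀ - p.1) * b₀ * (L'.map fun q => y₀ - q.1).prod := by ring
    rw [e4]
    exact key

/-- the linear form `l(a) = ∑ ε_i T_{v_i} a` -/
def Main_ell (L : List (Bool × Au)) : S →ₗ[ℝ] S := (L.map fun p => eps p.1 • TL p.2).sum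

theorem Main_ell_apply (L : List (Bool × Au)) (a : S) :
    Main_ell L a = (L.map fun p => eps p.1 • T p.2 a).sum := by
  unfold Main_ell
  induction L with
  | nil => simp
  | cons p L ih =>
    simp only [List.map_cons, List.sum_cons, LinearMap.add_apply, LinearMap.smul_apply] at ih ⊢
    rw [ih]
    rfl

theorem Main_ell_dvd (L : List (Bool × Au)) {m : ℕ} {a : S} (h : (X : S) ^ m ∣ a) :
    (X : S) ^ m ∣ Main_ell L a := by
  rw [Main_ell_apply]
  induction L with
  | nil => simp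
  | cons p L ih =>
    simp only [List.map_cons, List.sum_cons]
    refine dvd_add ?_ ih
    rw [PowerSeries.smul_eq_C_mul]
    exact (T_dvd_iff.2 h).mul_left _

/-- the space `V_n` -/
def Main_V (P : Subgroup Au) (L : List (Bool × Au)) (N : ℕ) : Submodule ℝ S where
  carrier := {a | ∀ u ∈ P, (X : S) ^ N ∣ Main_ell L (T u a)}
  add_mem' := by
    intro a b ha hb u hu
    rw [T_add, map_add]
    exact dvd_add (ha u hu) (hb u hu)
  zero_mem' := by
    intro u _
    have : T u (0 : S) = 0 := by simp [T]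
    rw [this, map_zero]
    exact dvd_zero _
  smul_mem' := by
    intro r a ha u hu
    rw [T_smul, map_smul, PowerSeries.smul_eq_C_mul]
    exact (ha u hu).mul_left _

theorem Main_core {G P : Subgroup Au} (hG : ∀ g ∈ G, 0 < coeff 1 (g X)) (hPG : P ≤ G)
    (hPJ : P ≤ J 1) {a b : Au} (ha : a ∈ P) (hb : b ∈ P) (hab : a * b ≠ b * a)
    (l : List (Bool × Au)) (hl : ∀ p ∈ l, p.2 ∈ G) (hne : l ≠ []) {x : Au} (hx : x ∈ P)
    (hnd : ((vs x l).map Prod.snd).Nodup) : ∃ g ∈ P, ev (x * g) l ≠ ev x l := by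
  by_contra hcon
  push Not at hcon
  -- the product of conjugates is 1
  have hprod : ∀ g ∈ P, ((vs x l).map fun p => p.2 * ltr g p.1 * p.2⁻¹).prod = 1 := by
    intro g hg
    have h1 := hcon g hg
    rw [ev_mul] at h1
    exact mul_eq_right.1 h1
  set L : List (Bool × Au) := vs x l with hL
  have hLG : ∀ q ∈ L, q.2 ∈ G := vs_mem (hPG hx) hl
  -- linearisation
  have hlin : ∀ n : ℕ, ∀ g ∈ P, g ∈ J n → (X : S) ^ (2 * n + 1) ∣ Main_ell L (A g) := by
    intro n g hg hgn
    have h1 := A_list hgn L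
    rw [hprod g hg] at h1
    have h2 : A (1 : Au) = 0 := by simp [A]
    rw [h2, zero_sub, dvd_neg] at h1
    rw [Main_ell_apply]
    exact h1
  obtain ⟨k₁, k₂, k₃, hk1, hk12, hk23, ⟨h₁, hh1, he1⟩, ⟨h₂, hh2, he2⟩, ⟨h₃, hh3, he3⟩⟩ :=
    three_orders hPJ ha hb hab
  have hx1 := Xf_lead hk1 he1
  have hx2 := Xf_lead (by omega : 1 ≤ k₂) he2
  have hx3 := Xf_lead (by omega : 1 ≤ k₃) he3
  obtain ⟨hom1, hom2⟩ := Wron_lead hk12 hk23 hx1.1 hx1.2 hx2.1 hx2.2 hx3.1 hx3.2
  set om : S := Wron (Xf h₁) (Xf h₂) (Xf h₃) with hom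
  -- stability of V
  have hVdvd : ∀ N : ℕ, ∀ f : S, (X : S) ^ N ∣ f → f ∈ Main_V P L N := by
    intro N f hf u _
    exact Main_ell_dvd L (T_dvd_iff.2 hf)
  have hVT : ∀ N : ℕ, ∀ u ∈ P, ∀ f ∈ Main_V P L N, T u f ∈ Main_V P L N := by
    intro N u hu f hf u' hu'
    rw [← T_mul]
    exact hf (u' * u) (P.mul_mem hu' hu)
  have hVbr : ∀ N : ℕ, ∀ h ∈ P, ∀ f ∈ Main_V P L N, br (Xf h) f ∈ Main_V P L N := by
    intro N h hh f hf
    rw [← lg_TL (hPJ hh)]
    exact lg_mem (uni_TL (hPJ hh)) (hVdvd N) (fun f hf => hVT N h hh f hf) hf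
  have hVom : ∀ N : ℕ, ∀ f ∈ Main_V P L N, om * f ∈ Main_V P L N := by
    intro N f hf
    have h1 := s3 (Xf h₁) (Xf h₂) (Xf h₃) f
    have h2 : (-2 : S) * (om * f) ∈ Main_V P L N := by
      rw [← h1]
      refine Submodule.sub_mem _ (Submodule.add_mem _ (Submodule.sub_mem _ (Submodule.add_mem _
        (Submodule.sub_mem _ ?_ ?_) ?_) ?_) ?_) ?_
      · exact hVbr N h₁ hh1 _ (hVbr N h₂ hh2 _ (hVbr N h₃ hh3 _ hf))
      · exact hVbr N h₁ hh1 _ (hVbr N h₃ hh3 _ (hVbr N h₂ hh2 _ hf))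
      · exact hVbr N h₂ hh2 _ (hVbr N h₃ hh3 _ (hVbr N h₁ hh1 _ hf))
      · exact hVbr N h₂ hh2 _ (hVbr N h₁ hh1 _ (hVbr N h₃ hh3 _ hf))
      · exact hVbr N h₃ hh3 _ (hVbr N h₁ hh1 _ (hVbr N h₂ hh2 _ hf))
      · exact hVbr N h₃ hh3 _ (hVbr N h₂ hh2 _ (hVbr N h₁ hh1 _ hf))
    have h3 := (Main_V P L N).smul_mem (-1 / 2 : ℝ) h2
    have e : (-1 / 2 : ℝ) • ((-2 : S) * (om * f)) = om * f := by
      rw [PowerSeries.smul_eq_C_mul, ← mul_assoc]
      have e2 : (PowerSeries.C (-1 / 2 : ℝ) : S) * (-2) = 1 := by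
        have e3 : (-2 : S) = PowerSeries.C (-2 : ℝ) := by
          rw [map_neg, map_ofNat]
        rw [e3, ← map_mul]
        norm_num
      rw [e2, one_mul]
    rw [e] at h3
    exact h3
  have hVpow : ∀ N : ℕ, ∀ k : ℕ, ∀ f ∈ Main_V P L N, om ^ k * f ∈ Main_V P L N := by
    intro N k
    induction k with
    | zero => intro f hf; simpa using hf
    | succ k ih =>
      intro f hf
      rw [pow_succ, mul_assoc]
      exact ih _ (hVom N f hf)
  -- displacement of deep elements
  have hVA : ∀ n : ℕ, ∀ g ∈ P, g ∈ J n → A g ∈ Main_V P L (2 * n + 1) := by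
    intro n g hg hgn u hu
    have h1 : u * g * u⁻¹ ∈ P := P.mul_mem (P.mul_mem hu hg) (P.inv_mem hu)
    have h2 := hlin n (u * g * u⁻¹) h1 (J_conj hgn u)
    have h3 := A_conj hgn u
    have h4 := Main_ell_dvd L h3
    rw [map_sub] at h4
    exact (dvd_sub_right h2).1 h4
  -- the list is not empty
  obtain ⟨q₀, L', hL'⟩ : ∃ q L', L = q :: L' := by
    cases l with
    | nil => exact absurd rfl hne
    | cons p l' => exact ⟨_, _, rfl⟩
  have hkey : ∀ n : ℕ, ∀ g ∈ P, g ∈ J n → (X : S) ^ (2 * n + 1) ∣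
      (eps q₀.1 • T q₀.2 (A g)) * ((L'.map fun p => (p.2 om, eps p.1 • T p.2 (A g))).map
        fun p => q₀.2 om - p.1).prod := by
    intro n g hg hgn
    refine Main_elim (2 * n + 1) (q₀.2 om) _ _ ?_
    intro k
    have h1 := hVpow (2 * n + 1) k _ (hVA n g hg hgn) 1 P.one_mem
    rw [T_one, Main_ell_apply, hL'] at h1
    simp only [List.map_cons, List.sum_cons] at h1
    have e1 : ∀ p : Bool × Au, eps p.1 • T p.2 (om ^ k * A g) =
        (p.2 om) ^ k * (eps p.1 • T p.2 (A g)) := by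
      intro p
      rw [T_mulf, map_pow, mul_smul_comm]
    rw [e1 q₀] at h1
    have e2 : (L'.map fun p => eps p.1 • T p.2 (om ^ k * A g)).sum =
        ((L'.map fun p => (p.2 om, eps p.1 • T p.2 (A g))).map fun p => p.1 ^ k * p.2).sum := by
      rw [List.map_map]
      congr 1
      refine List.map_congr_left ?_
      intro p _
      exact e1 p
    rw [e2] at h1
    exact h1
  -- the product is nonzero and does not depend on `g`
  set R : S := (L'.map fun p => q₀.2 om - p.2 om).prod with hR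
  have hR0 : R ≠ 0 := by
    rw [hR]
    refine List.prod_ne_zero ?_
    intro h0
    rw [List.mem_map] at h0
    obtain ⟨p, hp, hp0⟩ := h0
    have hpG : p.2 ∈ G := hLG p (by rw [hL']; exact List.mem_cons_of_mem _ hp)
    have hqG : q₀.2 ∈ G := hLG q₀ (by rw [hL']; exact List.mem_cons_self)
    have h1 : (q₀.2⁻¹ * p.2) om = om := by
      have h2 : q₀.2 om = p.2 om := sub_eq_zero.1 hp0
      have h3 : q₀.2⁻¹ (q₀.2 om) = om := by
        have := congrArg (fun φ : Au => φ om) (inv_mul_cancel q₀.2)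
        simpa using this
      rw [AlgEquiv.mul_apply, ← h2, h3]
    have h2 : q₀.2⁻¹ * p.2 = 1 :=
      fix_om (by omega : 1 ≤ k₁ + k₂ + k₃) hom1 hom2
        (hG _ (G.mul_mem (G.inv_mem hqG) hpG)) h1
    have h3 : q₀.2 = p.2 := inv_mul_eq_one.1 h2
    rw [hL'] at hnd
    simp only [List.map_cons, List.nodup_cons, List.mem_map, not_exists, not_and] at hnd
    exact hnd.1 p hp h3.symm
  obtain ⟨Dg, hD1, hD2⟩ : ∃ d : ℕ, (X : S) ^ d ∣ R ∧ ¬ (X : S) ^ (d + 1) ∣ R := by
    have hfin : FiniteMultiplicity (X : S) R :=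
      FiniteMultiplicity.of_prime_left PowerSeries.X_prime hR0
    exact ⟨multiplicity (X : S) R, pow_multiplicity_dvd _ _, hfin.not_pow_dvd_of_multiplicity_lt
      (Nat.lt_succ_self _)⟩
  obtain ⟨n, hn, g, hg, hgn⟩ := deep hPJ ha hb hab Dg
  have h1 := hkey n g hg hgn.1
  have e1 : ((L'.map fun p => (p.2 om, eps p.1 • T p.2 (A g))).map
        fun p => q₀.2 om - p.1).prod = R := by
    rw [hR, List.map_map]
    rfl
  rw [e1] at h1
  have heps : (eps q₀.1) ≠ 0 := by
    unfold eps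
    split <;> norm_num
  have h2 : (X : S) ^ (2 * n + 1) ∣ T q₀.2 (A g) * R := by
    have h3 : (X : S) ^ (2 * n + 1) ∣ (eps q₀.1)⁻¹ • ((eps q₀.1 • T q₀.2 (A g)) * R) := by
      rw [PowerSeries.smul_eq_C_mul]
      exact h1.mul_left _
    have e3 : (eps q₀.1)⁻¹ • ((eps q₀.1 • T q₀.2 (A g)) * R) = T q₀.2 (A g) * R := by
      rw [smul_mul_assoc, smul_smul, inv_mul_cancel₀ heps, one_smul]
    rw [e3] at h3
    exact h3
  have h3 : (X : S) ^ (n + 1) ∣ T q₀.2 (A g) := T_dvd_iff.2 hgn.1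
  have h4 : (X : S) ^ ((n + 1) + Dg + 1) ∣ T q₀.2 (A g) * R :=
    (pow_dvd_pow _ (by omega)).trans h2
  rcases succ_dvd_or_succ_dvd_of_succ_sum_dvd_mul PowerSeries.X_prime h3 hD1 h4 with h5 | h5
  · have h6 := T_dvd_iff.1 h5
    rw [PowerSeries.X_pow_dvd_iff] at h6
    exact hgn.2 (h6 (n + 1) (by omega))
  · exact hD2 h5

/-- `P` a non-abelian group of formal automorphisms tangent to the identity, `G` a group of formal
automorphisms with positive multipliers: nonempty reduced words with constants in `G` are not constant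
on `P`. -/
theorem main_formal {G P : Subgroup Au} (hG : ∀ g ∈ G, 0 < coeff 1 (g X)) (hPG : P ≤ G)
    (hPJ : P ≤ J 1) {a b : Au} (ha : a ∈ P) (hb : b ∈ P) (hab : a * b ≠ b * a)
    (l : List (Bool × Au)) (hl : ∀ p ∈ l, p.2 ∈ G) (hr : Red l) (hne : l ≠ []) (c : Au) :
    ∃ x ∈ P, ev x l ≠ c := by
  -- one step
  have step : ∀ l : List (Bool × Au), (∀ p ∈ l, p.2 ∈ G) → Red l → l ≠ [] →
      ¬ ((∃ c l', l = (false, c) :: l') ∧ (∃ c l', l = l' ++ [(true, c)])) →
      (∀ l' : List (Bool × Au), (∀ p ∈ l', p.2 ∈ G) → Red l' → l' ≠ [] →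
        l'.length < l.length → ∀ c : Au, ∃ x ∈ P, ev x l' ≠ c) →
      ∀ c : Au, ∃ x ∈ P, ev x l ≠ c := by
    intro l hl hr hne hs IH c
    obtain ⟨Ls, hLs, hnd⟩ := vs_nodup (H := G) (P := P) l hl hr hs IH
    obtain ⟨x, hx, hxL⟩ := common hPJ Ls hLs
    obtain ⟨g, hg, hg2⟩ := Main_core hG hPG hPJ ha hb hab l hl hne hx (hnd x hxL)
    by_cases h1 : ev x l = c
    · exact ⟨x * g, P.mul_mem hx hg, fun h2 => hg2 (h2.trans h1.symm)⟩
    · exact ⟨x, hx, h1⟩
  -- induction on the length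
  have main : ∀ n : ℕ, ∀ l : List (Bool × Au), l.length = n → (∀ p ∈ l, p.2 ∈ G) → Red l →
      l ≠ [] → ∀ c : Au, ∃ x ∈ P, ev x l ≠ c := by
    intro n
    induction n using Nat.strong_induction_on with
    | _ n ih =>
      intro l hn hl hr hne c
      by_cases hs : (∃ c l', l = (false, c) :: l') ∧ (∃ c l', l = l' ++ [(true, c)])
      · set l₂ : List (Bool × Au) := l.map fun p => (!p.1, p.2) with hl2
        have hlen : l₂.length = l.length := by simp [hl2]
        obtain ⟨x, hx, hx2⟩ := step l₂ (by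
            intro p hp
            rw [hl2, List.mem_map] at hp
            obtain ⟨q, hq, rfl⟩ := hp
            exact hl q hq) (Red_flip hr) (by
            intro h0
            apply hne
            rw [← List.length_eq_zero_iff, ← hlen, h0]
            rfl) (by
            rintro ⟨⟨c', l', h1⟩, -⟩
            obtain ⟨⟨c₂, l₃, h2⟩, -⟩ := hs
            rw [hl2, h2] at h1
            simp at h1) (by
            intro l' h1 h2 h3 h4
            exact ih l'.length (by omega) l' rfl h1 h2 h3) c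
        refine ⟨x⁻¹, P.inv_mem hx, ?_⟩
        rw [ev_inv]
        exact hx2
      · exact step l hl hr hne hs (fun l' h1 h2 h3 h4 =>
          ih l'.length (by omega) l' rfl h1 h2 h3) c
  exact main _ l rfl hl hr hne c

end Pool.Agent.H81.MI
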