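import Pool.Agent.H81.MI.Lin

/-!
# Module Ord: exact orders

Hints. `comm_mem`: the operators `g - 1`, `h - 1` raise the order by `n`, `m`, and
`(g h - h g) f = (g-1)(h-1) f - (h-1)(g-1) f`; apply to `f = (h g)⁻¹ X`-type elements:
`g h g⁻¹ h⁻¹ X - X = (g h - h g) y`, `y = (h g)⁻¹ X`, `X ∣ y`.
`comm_ex` (`k < n`): `A (h g h⁻¹ g⁻¹) ≡ T h (A g) - A g` modulo `X^(2n+1)` (`A_mul`, `A_conj`, `A_inv`), and the
coefficient of `X^(n+k+1)` of `T h (A g) - A g` is `α β (n - k)` (`T h a * D (h X) = h a`).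
`fix_om`: first `μ ^ r = 1` (`coeff_map_lead`), so `μ = 1`, `u ∈ J 1`; if `u ≠ 1` take its exact order `k` and
look at the coefficient `r + k` of `u om - om`, it is `r * coeff r om * coeff (k+1) (A u)`.
-/

set_option autoImplicit false

noncomputable section

namespace Pool.Agent.H81.MI

open PowerSeries

theorem exists_ex {g : Au} (hg : g ∈ J 1) (hne : g ≠ 1) : ∃ n, 1 ≤ n ∧ Ex n g := by
  classical
  have h0 : A g ≠ 0 := by
    intro h
    apply hne
    apply ext_X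
    have : g X - X = 0 := h
    rw [sub_eq_zero] at this
    simpa using this
  have h1 : ∃ m, coeff m (A g) ≠ 0 := by
    by_contra hcon
    push Not at hcon
    exact h0 (PowerSeries.ext fun m => by simpa using hcon m)
  set m := Nat.find h1 with hm
  have h2 : coeff m (A g) ≠ 0 := Nat.find_spec h1
  have h3 : ∀ j < m, coeff j (A g) = 0 := by
    intro j hj
    have := Nat.find_min h1 hj
    simpa using this
  have h4 : 2 ≤ m := by
    by_contra hlt
    exact h2 ((X_pow_dvd_iff.1 (mem_J.1 hg)) m (by omega))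
  refine ⟨m - 1, by omega, ?_, ?_⟩
  · rw [show m - 1 + 1 = m by omega, X_pow_dvd_iff]
    exact h3
  · rwa [show m - 1 + 1 = m by omega]

theorem Ex.mem {n : ℕ} {g : Au} (h : Ex n g) : g ∈ J n := h.1

theorem Ord_le {n m : ℕ} {g : Au} (h : Ex n g) (hm : g ∈ J m) : m ≤ n := by
  by_contra hlt
  exact h.2 ((X_pow_dvd_iff.1 (mem_J.1 hm)) (n + 1) (by omega))

theorem comm_mem {n m : ℕ} {g h : Au} (hg : g ∈ J n) (hh : h ∈ J m) :
    g * h * g⁻¹ * h⁻¹ ∈ J (n + m) := by
  rw [mem_J]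
  set y : S := g⁻¹ (h⁻¹ X) with hy
  have e1 : (g * h * g⁻¹ * h⁻¹) X = g (h y) := by
    simp only [AlgEquiv.mul_apply, hy]
  have e2 : h (g y) = X := by
    have h1 : g (g⁻¹ (h⁻¹ X)) = h⁻¹ X := by
      simp
    have h2 : h (h⁻¹ X) = X := by
      simp
    rw [hy, h1, h2]
  have hX : (X : S) ^ 1 ∣ y := by
    rw [pow_one, hy]
    have := dvd_map (g := g⁻¹) (m := 1) (f := h⁻¹ X) (by rw [pow_one]; exact X_dvd h⁻¹)
    rwa [pow_one] at this
  have e3 : A (g * h * g⁻¹ * h⁻¹) = (g (h y - y) - (h y - y)) - (h (g y - y) - (g y - y)) := by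
    unfold A
    rw [e1, map_sub, map_sub, e2]
    ring
  rw [e3]
  have d1 : (X : S) ^ (n + m + 1) ∣ g (h y - y) - (h y - y) := by
    have := depth hg (depth hh hX)
    exact (pow_dvd_pow X (by omega)).trans this
  have d2 : (X : S) ^ (n + m + 1) ∣ h (g y - y) - (g y - y) := by
    have := depth hh (depth hg hX)
    exact (pow_dvd_pow X (by omega)).trans this
  exact dvd_sub d1 d2

theorem Ord_binom (w : S) (k m : ℕ) :
    ∃ r : S, (1 + X ^ k * w) ^ m = 1 + (m : S) * (X ^ k * w) + X ^ (2 * k) * r := by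
  induction m with
  | zero => exact ⟨0, by simp⟩
  | succ m ih =>
    obtain ⟨r, hr⟩ := ih
    refine ⟨(m : S) * w ^ 2 + r + r * (X ^ k * w), ?_⟩
    rw [pow_succ, hr]
    push_cast
    ring

/-- the leading coefficient of `h f - f` -/
theorem Ord_coeff {k m : ℕ} (hk : 1 ≤ k) {h : Au} (hh : h ∈ J k) {f : S} (hf : (X : S) ^ m ∣ f) :
    (X : S) ^ (m + k) ∣ h f - f ∧
    coeff (m + k) (h f - f) = m * coeff m f * coeff (k + 1) (A h) := by
  obtain ⟨w, hw⟩ := mem_J.1 hh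
  obtain ⟨u, hu⟩ := hf
  obtain ⟨s, hs⟩ := depth' hh u
  obtain ⟨r, hr⟩ := Ord_binom w k m
  have hX : h X = X * (1 + X ^ k * w) := by
    have : h X = A h + X := by unfold A; ring
    rw [this, hw]
    ring
  have hu' : h u = u + X ^ (k + 1) * s := by rw [← hs]; ring
  obtain ⟨j, hj⟩ : ∃ j, 2 * k = k + 1 + j := ⟨k - 1, by omega⟩
  have e : h f - f = X ^ (m + k) * ((m : S) * w * u +
      X * (X ^ j * r * u + s * (1 + (m : S) * (X ^ k * w) + X ^ (k + 1 + j) * r))) := by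
    rw [hu, map_mul, map_pow, hX, mul_pow, hr, hu', hj]
    ring
  refine ⟨⟨_, e⟩, ?_⟩
  have c1 : coeff (k + 1) (A h) = constantCoeff w := by
    rw [hw]
    have := coeff_X_pow_mul w (k + 1) 0
    rw [zero_add] at this
    rw [this]
    simp
  have c2 : coeff m f = constantCoeff u := by
    rw [hu]
    have := coeff_X_pow_mul u m 0
    rw [zero_add] at this
    rw [this]
    simp
  rw [e, c1, c2]
  have := coeff_X_pow_mul ((m : S) * w * u +
      X * (X ^ j * r * u + s * (1 + (m : S) * (X ^ k * w) + X ^ (k + 1 + j) * r))) (m + k) 0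
  rw [zero_add] at this
  rw [this, coeff_zero_eq_constantCoeff_apply, map_add, map_mul, map_mul, map_mul, constantCoeff_X,
    zero_mul, add_zero, map_natCast]
  ring

theorem comm_ex {k n : ℕ} (hk : 1 ≤ k) (hkn : k < n) {h g : Au} (hh : Ex k h) (hg : Ex n g) :
    Ex (n + k) (h * g * h⁻¹ * g⁻¹) := by
  have hm := comm_mem hh.mem hg.mem
  rw [add_comm] at hm
  refine ⟨hm, ?_⟩
  set a : S := A g with ha
  have ha1 : (X : S) ^ (n + 1) ∣ a := hg.1
  -- reduction to the linear part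
  have h1 : (X : S) ^ (2 * n + 1) ∣ A (h * g * h⁻¹ * g⁻¹) - (T h a - a) := by
    have i1 := A_mul (J_conj hg.mem h) ((J n).inv_mem hg.mem)
    have i2 := A_conj hg.mem h
    have i3 := A_inv hg.mem
    have := dvd_add (dvd_add i1 i2) i3
    refine this.trans (dvd_of_eq ?_)
    rw [ha]
    ring
  have h2 : coeff (n + k + 1) (A (h * g * h⁻¹ * g⁻¹)) = coeff (n + k + 1) (T h a - a) := by
    have := (X_pow_dvd_iff.1 h1) (n + k + 1) (by omega)
    rw [map_sub, sub_eq_zero] at this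
    exact this
  rw [h2]
  obtain ⟨d1, c1⟩ := Ord_coeff hk hh.mem ha1
  -- the derivative of `h X`
  obtain ⟨w, hw⟩ := hh.1
  have hD : D (h X) = 1 + D (A h) := by
    have : h X = X + A h := by unfold A; ring
    rw [this, D_add, D_X]
  have hDd : (X : S) ^ k ∣ D (A h) := D_dvd hh.1
  have hDc : coeff k (D (A h)) = (k + 1) * coeff (k + 1) (A h) := by
    unfold D
    rw [PowerSeries.coeff_derivative]
    ring
  have hrel : T h a * D (h X) = h a := by
    unfold T
    rw [mul_assoc, mul_comm (D (h X))⁻¹, DgX_inv, mul_one]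
  have e1 : (T h a - a) * D (h X) = (h a - a) - a * D (A h) := by
    rw [sub_mul, hrel, hD]
    ring
  have d2 : (X : S) ^ (n + 1 + k) ∣ a * D (A h) := by
    rw [pow_add]
    exact mul_dvd_mul ha1 hDd
  have d3 : (X : S) ^ (n + 1 + k) ∣ T h a - a := by
    have e2 : T h a - a = ((h a - a) - a * D (A h)) * (D (h X))⁻¹ := by
      rw [← e1, mul_assoc, DgX_inv, mul_one]
    rw [e2]
    exact Dvd.dvd.mul_right (dvd_sub d1 d2) _
  -- leading coefficients
  have c2 : coeff (n + 1 + k) (a * D (A h)) = coeff (n + 1) a * ((k + 1) * coeff (k + 1) (A h)) := by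
    rw [← hDc]
    obtain ⟨p, hp⟩ := ha1
    obtain ⟨q, hq⟩ := hDd
    have i1 : coeff (n + 1) a = constantCoeff p := by
      rw [hp]
      have := coeff_X_pow_mul p (n + 1) 0
      rw [zero_add] at this
      rw [this]
      simp
    have i2 : coeff k (D (A h)) = constantCoeff q := by
      rw [hq]
      have := coeff_X_pow_mul q k 0
      rw [zero_add] at this
      rw [this]
      simp
    rw [i1, i2, hp, hq, show X ^ (n + 1) * p * (X ^ k * q) = X ^ (n + 1 + k) * (p * q) by ring]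
    have := coeff_X_pow_mul (p * q) (n + 1 + k) 0
    rw [zero_add] at this
    rw [this]
    simp
  have c3 : coeff (n + 1 + k) ((T h a - a) * D (h X)) = coeff (n + 1 + k) (T h a - a) := by
    obtain ⟨p, hp⟩ := d3
    rw [hp, mul_assoc]
    have j1 := coeff_X_pow_mul (p * D (h X)) (n + 1 + k) 0
    have j2 := coeff_X_pow_mul p (n + 1 + k) 0
    rw [zero_add] at j1 j2
    rw [j1, j2, coeff_zero_eq_constantCoeff_apply, coeff_zero_eq_constantCoeff_apply, map_mul, hD,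
      map_add, map_one]
    have : constantCoeff (D (A h)) = 0 := by
      have := (X_pow_dvd_iff.1 hDd) 0 (by omega)
      simpa using this
    rw [this, add_zero, mul_one]
  have e4 : coeff (n + 1 + k) (T h a - a) =
      (((n : ℝ) + 1) - (k + 1)) * (coeff (n + 1) a * coeff (k + 1) (A h)) := by
    rw [← c3, e1, map_sub, c1, c2]
    push_cast
    ring
  rw [show n + k + 1 = n + 1 + k by omega, e4]
  refine mul_ne_zero ?_ (mul_ne_zero hg.2 hh.2)
  have : (k : ℝ) < n := by exact_mod_cast hkn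
  intro h0
  linarith

theorem Ord_pair {P : Subgroup Au} (hP : P ≤ J 1) {a b : Au} (ha : a ∈ P) (hb : b ∈ P)
    (hab : a * b ≠ b * a) :
    ∃ k m : ℕ, 1 ≤ k ∧ k < m ∧ Ex k a ∧ ∃ c ∈ P, Ex m c := by
  have ha1 : a ≠ 1 := by
    rintro rfl
    exact hab (by simp)
  obtain ⟨k, hk, hka⟩ := exists_ex (hP ha) ha1
  have hc1 : a * b * a⁻¹ * b⁻¹ ≠ 1 := by
    intro h
    apply hab
    rw [mul_inv_eq_one, mul_inv_eq_iff_eq_mul] at h
    exact h
  have hcP : a * b * a⁻¹ * b⁻¹ ∈ P :=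
    P.mul_mem (P.mul_mem (P.mul_mem ha hb) (P.inv_mem ha)) (P.inv_mem hb)
  obtain ⟨m, _, hm⟩ := exists_ex (hP hcP) hc1
  refine ⟨k, m, hk, ?_, hka, _, hcP, hm⟩
  exact Ord_le hm (comm_mem hka.mem (hP hb))

theorem three_orders {P : Subgroup Au} (hP : P ≤ J 1) {a b : Au} (ha : a ∈ P) (hb : b ∈ P)
    (hab : a * b ≠ b * a) :
    ∃ k₁ k₂ k₃ : ℕ, 1 ≤ k₁ ∧ k₁ < k₂ ∧ k₂ < k₃ ∧
      (∃ h ∈ P, Ex k₁ h) ∧ (∃ h ∈ P, Ex k₂ h) ∧ (∃ h ∈ P, Ex k₃ h) := by
  obtain ⟨k, m, hk, hkm, hka, c, hc, hmc⟩ := Ord_pair hP ha hb hab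
  exact ⟨k, m, m + k, hk, hkm, by omega, ⟨a, ha, hka⟩, ⟨c, hc, hmc⟩,
    _, P.mul_mem (P.mul_mem (P.mul_mem ha hc) (P.inv_mem ha)) (P.inv_mem hc),
    comm_ex hk hkm hka hmc⟩

theorem deep {P : Subgroup Au} (hP : P ≤ J 1) {a b : Au} (ha : a ∈ P) (hb : b ∈ P)
    (hab : a * b ≠ b * a) (N : ℕ) : ∃ n, N < n ∧ ∃ g ∈ P, Ex n g := by
  obtain ⟨k, m, hk, hkm, hka, c, hc, hmc⟩ := Ord_pair hP ha hb hab
  have h : ∀ j : ℕ, ∃ n, m + j ≤ n ∧ ∃ g ∈ P, Ex n g := by
    intro j
    induction j with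
    | zero => exact ⟨m, by omega, c, hc, hmc⟩
    | succ j ih =>
      obtain ⟨n, hn, g, hg, hgn⟩ := ih
      exact ⟨n + k, by omega, _,
        P.mul_mem (P.mul_mem (P.mul_mem ha hg) (P.inv_mem ha)) (P.inv_mem hg),
        comm_ex hk (by omega) hka hgn⟩
  obtain ⟨n, hn, hg⟩ := h (N + 1)
  exact ⟨n, by omega, hg⟩

theorem fix_om {om : S} {r : ℕ} (hr : 1 ≤ r) (hd : (X : S) ^ r ∣ om) (hc : coeff r om ≠ 0)
    {u : Au} (hu : 0 < coeff 1 (u X)) (he : u om = om) : u = 1 := by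
  have h1 := coeff_map_lead u hd
  rw [he] at h1
  have h2 : coeff 1 (u X) ^ r = 1 := by
    have : coeff r om * (coeff 1 (u X) ^ r - 1) = 0 := by rw [mul_sub, ← h1]; ring
    rcases mul_eq_zero.1 this with h | h
    · exact absurd h hc
    · linarith
  have h3 : coeff 1 (u X) = 1 := by
    rcases (pow_eq_one_iff_of_nonneg hu.le (by omega)).1 h2 with h
    exact h
  have h4 : u ∈ J 1 := mem_J_one_iff.2 h3
  by_contra hne
  obtain ⟨k, hk, hku⟩ := exists_ex h4 hne
  have h5 := (Ord_coeff hk hku.mem hd).2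
  rw [he, sub_self, map_zero] at h5
  have h6 : (r : ℝ) ≠ 0 := by
    have : r ≠ 0 := by omega
    exact_mod_cast this
  exact mul_ne_zero (mul_ne_zero h6 hc) hku.2 h5.symm

end Pool.Agent.H81.MI
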