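import Pool.Agent.H81.MI.Defs

/-!
# Module Ser: basic facts on automorphisms of `ℝ⟦X⟧`

Hints. `X` is not a unit, so `g X` is not a unit, so its constant coefficient is `0` (`X ∣ g X`); apply
this to `g` and `g⁻¹` to get `coeff 1 (g X) ≠ 0`. Two algebra maps which agree on `X` agree on
polynomials, and `f = trunc + X ^ M * ..`, so they agree modulo `X ^ M` for all `M`. Chain rule: true
for `f = X ^ i` (Leibniz), linear, and both sides are divisible by `X ^ M` if `X ^ (M + 1) ∣ f`.
`PowerSeries.mul_inv_cancel` for the inverse (`ℝ` is a field).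
-/

set_option autoImplicit false

noncomputable section

namespace Pool.Agent.H81.MI

open PowerSeries

theorem Ser_split (s : S) : ∃ (c : ℝ) (t : S), s = c • (1 : S) + X * t := by
  refine ⟨constantCoeff s, mk fun p => coeff (p + 1) s, ?_⟩
  conv_lhs => rw [eq_X_mul_shift_add_const s]
  rw [add_comm]
  congr 1
  ext i
  simp [coeff_C, coeff_one]

/-- induction for additive operators which vanish on `1` and are divisible. -/
theorem Ser_zero (E : S → S) (hadd : ∀ a b, E (a + b) = E a + E b)
    (h1 : ∀ c : ℝ, E (c • 1) = 0) (g : S) (hg : X ∣ g)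
    (hmul : ∀ s, E (X * s) = g * E s) (s : S) : E s = 0 := by
  have h : ∀ (N : ℕ) (s : S), X ^ N ∣ E s := by
    intro N
    induction N with
    | zero => intro s; simp
    | succ N ih =>
      intro s
      obtain ⟨c, t, rfl⟩ := Ser_split s
      rw [hadd, h1, zero_add, hmul, pow_succ']
      exact mul_dvd_mul hg (ih t)
  ext i
  have := h (i + 1) s
  rw [X_pow_dvd_iff] at this
  simpa using this i (by omega)

theorem X_dvd (g : Au) : (X : S) ∣ g X := by
  rw [X_dvd_iff]
  by_contra h
  have h1 : IsUnit (g X) := isUnit_iff_constantCoeff.2 (isUnit_iff_ne_zero.2 h)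
  have h2 : IsUnit (X : S) := (MulEquiv.isUnit_map g).1 h1
  have h3 := isUnit_iff_constantCoeff.1 h2
  rw [constantCoeff_X] at h3
  exact not_isUnit_zero h3

theorem dvd_map {g : Au} {m : ℕ} {f : S} (h : (X : S) ^ m ∣ f) : (X : S) ^ m ∣ g f := by
  obtain ⟨s, rfl⟩ := h
  rw [map_mul, map_pow]
  exact (pow_dvd_pow_of_dvd (X_dvd g) m).mul_right _

theorem dvd_map_iff {g : Au} {m : ℕ} {f : S} : (X : S) ^ m ∣ g f ↔ (X : S) ^ m ∣ f := by
  refine ⟨fun h => ?_, fun h => dvd_map h⟩
  have h1 := dvd_map (g := g.symm) h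
  rwa [AlgEquiv.symm_apply_apply] at h1

theorem constCoeff_map (g : Au) (f : S) : constantCoeff (g f) = constantCoeff f := by
  obtain ⟨c, t, rfl⟩ := Ser_split f
  have h1 : g (c • (1 : S) + X * t) = c • (1 : S) + g X * g t := by
    rw [map_add, map_smul, map_one, map_mul]
  have h2 := X_dvd_iff.1 (X_dvd g)
  rw [h1, map_add, map_add, map_mul, map_mul, h2, constantCoeff_X, zero_mul, zero_mul]

/-- two automorphisms which agree at `X` are equal -/
theorem ext_X {g h : Au} (e : g X = h X) : g = h := by
  ext1 f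
  have key := Ser_zero (fun f => g f - h f) (fun a b => by simp only [map_add]; ring)
    (fun c => by simp only [map_smul, map_one, sub_self]) (g X) (X_dvd g)
    (fun s => by simp only [map_mul, e]; ring) f
  exact sub_eq_zero.1 key

theorem mu_ne (g : Au) : coeff 1 (g X) ≠ 0 := by
  intro h
  have h0 := X_dvd_iff.1 (X_dvd g)
  have h2 : (X : S) ^ 2 ∣ g X := by
    rw [X_pow_dvd_iff]
    intro m hm
    interval_cases m
    · rw [coeff_zero_eq_constantCoeff_apply]; exact h0
    · exact h
  rw [dvd_map_iff, X_pow_dvd_iff] at h2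
  have h3 := h2 1 (by omega)
  rw [coeff_one_X] at h3
  exact one_ne_zero h3

/-- if `f = c X^m + ..` then `g f = c μ^m X^m + ..` -/
theorem coeff_map_lead (g : Au) {m : ℕ} {f : S} (h : (X : S) ^ m ∣ f) :
    coeff m (g f) = coeff m f * coeff 1 (g X) ^ m := by
  obtain ⟨s, rfl⟩ := h
  obtain ⟨u, hu⟩ := X_dvd g
  have h1 : coeff 1 (g X) = constantCoeff u := by
    rw [hu, show (1 : ℕ) = 0 + 1 from rfl, coeff_succ_X_mul, coeff_zero_eq_constantCoeff_apply]
  have h2 : g (X ^ m * s) = X ^ m * (u ^ m * g s) := by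
    rw [map_mul, map_pow, hu, mul_pow]; ring
  have h3 : ∀ r : S, coeff m (X ^ m * r) = constantCoeff r := fun r => by
    have := coeff_X_pow_mul r m 0
    rwa [zero_add, coeff_zero_eq_constantCoeff_apply] at this
  rw [h2, h3, h3, h1, map_mul, map_pow, constCoeff_map, mul_comm]

theorem mu_mul (g h : Au) : coeff 1 ((g * h) X) = coeff 1 (g X) * coeff 1 (h X) := by
  rw [AlgEquiv.mul_apply, coeff_map_lead g (m := 1) (by rw [pow_one]; exact X_dvd h), pow_one,
    mul_comm]

theorem D_mul (f h : S) : D (f * h) = D f * h + f * D h := by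
  rw [D, D, D, Derivation.leibniz, smul_eq_mul, smul_eq_mul]
  ring

theorem D_add (f h : S) : D (f + h) = D f + D h := by
  rw [D, D, D, map_add]

theorem D_sub (f h : S) : D (f - h) = D f - D h := by
  rw [D, D, D, map_sub]

theorem D_X : D X = 1 := by
  rw [D]
  exact derivative_X

theorem Ser_D_smul (r : ℝ) (f : S) : D (r • f) = r • D f := by
  rw [D, D, Derivation.map_smul]

theorem Ser_D_const (c : ℝ) : D (c • (1 : S)) = 0 := by
  rw [Ser_D_smul, D, Derivation.map_one_eq_zero, smul_zero]

set_option linter.unusedVariables false in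
/-- for algebra derivations: a map which is additive, satisfies Leibniz and respects the filtration -/
theorem deriv_eq (d : S →ₗ[ℝ] S) (hl : ∀ f h, d (f * h) = d f * h + f * d h)
    (hf : ∀ (m : ℕ) (f : S), (X : S) ^ m ∣ f → (X : S) ^ m ∣ d f) (f : S) : d f = d X * D f := by
  have h1 : d 1 = 0 := by
    have := hl 1 1
    rw [mul_one, mul_one, one_mul] at this
    simpa using this
  have key := Ser_zero (fun f => d f - d X * D f) (fun a b => by simp only [map_add, D_add]; ring)
    (fun c => by simp only [map_smul, h1, smul_zero, Ser_D_const, mul_zero, sub_self]) X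
    (dvd_refl _) (fun s => by simp only [hl, D_mul, D_X]; ring) f
  exact sub_eq_zero.1 key

theorem D_dvd {m : ℕ} {f : S} (h : (X : S) ^ (m + 1) ∣ f) : (X : S) ^ m ∣ D f := by
  rw [X_pow_dvd_iff] at h ⊢
  intro i hi
  rw [D, coeff_derivative, h (i + 1) (by omega), zero_mul]

theorem chain (g : Au) (f : S) : D (g f) = g (D f) * D (g X) := by
  have key := Ser_zero (fun f => D (g f) - g (D f) * D (g X))
    (fun a b => by simp only [map_add, D_add]; ring)
    (fun c => by simp only [map_smul, map_one, Ser_D_const, map_zero, zero_mul, sub_self])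
    (g X) (X_dvd g)
    (fun s => by simp only [map_mul, map_add, D_mul, D_X, map_one]; ring) f
  exact sub_eq_zero.1 key

theorem Ser_cD (g : Au) : constantCoeff (D (g X)) ≠ 0 := by
  rw [D, ← coeff_zero_eq_constantCoeff_apply, coeff_derivative]
  simpa using mu_ne g

theorem DgX_inv (g : Au) : D (g X) * (D (g X))⁻¹ = 1 :=
  PowerSeries.mul_inv_cancel _ (Ser_cD g)

theorem T_one (a : S) : T 1 a = a := by
  have h := DgX_inv 1
  rw [AlgEquiv.one_apply, D_X, one_mul] at h
  rw [T, AlgEquiv.one_apply, AlgEquiv.one_apply, D_X, h, mul_one]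

theorem Ser_T_mul_D (g : Au) (a : S) : T g a * D (g X) = g a := by
  rw [T]
  linear_combination (g a) * DgX_inv g

theorem T_mul (g h : Au) (a : S) : T (g * h) a = T g (T h a) := by
  have h1 := Ser_T_mul_D (g * h) a
  have h2 := DgX_inv (g * h)
  have h3 : T g (T h a) * D ((g * h) X) = g (h a) := by
    rw [AlgEquiv.mul_apply, chain g (h X)]
    have h4 : T g (T h a) * D (g X) = g (T h a) := Ser_T_mul_D g _
    have h5 : g (T h a) * g (D (h X)) = g (h a) := by
      rw [← map_mul, Ser_T_mul_D]
    linear_combination g (D (h X)) * h4 + h5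
  have h6 : T (g * h) a * D ((g * h) X) = T g (T h a) * D ((g * h) X) := by
    rw [h1, h3, AlgEquiv.mul_apply]
  linear_combination (D ((g * h) X))⁻¹ * h6 - (T (g * h) a) * h2 + (T g (T h a)) * h2

theorem T_add (g : Au) (a b : S) : T g (a + b) = T g a + T g b := by
  rw [T, T, T, map_add]; ring

theorem T_sub (g : Au) (a b : S) : T g (a - b) = T g a - T g b := by
  rw [T, T, T, map_sub]; ring

theorem T_smul (g : Au) (r : ℝ) (a : S) : T g (r • a) = r • T g a := by
  rw [T, T, map_smul, smul_mul_assoc]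

theorem T_mulf (g : Au) (f a : S) : T g (f * a) = g f * T g a := by
  rw [T, T, map_mul]; ring

theorem T_dvd_iff {g : Au} {m : ℕ} {a : S} : (X : S) ^ m ∣ T g a ↔ (X : S) ^ m ∣ a := by
  rw [← dvd_map_iff (g := g) (f := a)]
  refine ⟨fun h => ?_, fun h => ?_⟩
  · rw [← Ser_T_mul_D g a]
    exact h.mul_right _
  · exact h.mul_right _

/-- the bilinear relation -/
theorem T_rel (g : Au) (a f : S) : T g a * D (g f) = g (a * D f) := by
  rw [chain, map_mul]
  linear_combination g (D f) * Ser_T_mul_D g a

end Pool.Agent.H81.MI
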