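import Pool.Agent.H81.MI.Main
import Pool.Agent.H81.MI.Cop
import Pool.Agent.H81.MI.Germ

/-!
# Module Top: no mixed identities for groups of analytic germs
-/

set_option autoImplicit false

noncomputable section

namespace Pool.Agent.H81.MI

open PowerSeries Filter Topology

theorem Top_ltr_map {G H : Type} [Group G] [Group H] (φ : G →* H) (x : G) (b : Bool) :
    ltr (φ x) b = φ (ltr x b) := by
  unfold ltr
  split <;> simp

theorem Top_ev_map {G H : Type} [Group G] [Group H] (φ : G →* H) (x : G) (l : List (Bool × G)) :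
    ev (φ x) (l.map fun p => (p.1, φ p.2)) = φ (ev x l) := by
  induction l with
  | nil => simp [ev]
  | cons p l ih =>
    simp only [List.map_cons, ev, map_mul, ih, Top_ltr_map]

theorem Top_Red_map {G H : Type} [Group G] [Group H] (φ : G →* H) (hφ : Function.Injective φ) :
    ∀ l : List (Bool × G), Red l → Red (l.map fun p => (p.1, φ p.2))
  | [], _ => trivial
  | [_], _ => trivial
  | p :: q :: l, h => by
    refine ⟨fun h1 => h.1 ?_, Top_Red_map φ hφ (q :: l) h.2⟩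
    exact hφ (by simpa using h1)

/-- version for a group with a faithful action by formal automorphisms -/
theorem top_formal {Γ : Type} [Group Γ] (ρ : Γ →* Au) (hρ : Function.Injective ρ)
    (hpos : ∀ g, 0 < coeff 1 (ρ g X)) (P : Subgroup Γ) (hP : ⁅⁅P, P⁆, ⁅P, P⁆⁆ ≠ ⊥)
    (W : Finset (Monoid.Coprod Γ (Multiplicative ℤ))) (hW : ∀ w ∈ W, w ≠ 1) :
    ∃ x ∈ ⁅P, P⁆, ∀ w ∈ W, Monoid.Coprod.lift (MonoidHom.id Γ) (zpowersHom Γ x) w ≠ 1 := by
  set K : Subgroup Γ := (J 1).comap ρ with hK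
  have hmemK : ∀ g, g ∈ K ↔ coeff 1 (ρ g X) = 1 := by
    intro g
    rw [hK, Subgroup.mem_comap, mem_J_one_iff]
  have hμ1 : coeff 1 ((1 : Au) X) = (1 : ℝ) := by simp
  have hμinv : ∀ g : Au, coeff 1 (g X) * coeff 1 (g⁻¹ X) = 1 := by
    intro g
    rw [← mu_mul, mul_inv_cancel, hμ1]
  have hcomm : ⁅P, P⁆ ≤ K := by
    rw [Subgroup.commutator_le]
    intro g₁ _ g₂ _
    rw [hmemK, commutatorElement_def, map_mul, map_mul, map_mul, mu_mul, mu_mul, mu_mul,
      map_inv, map_inv]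
    have h1 := hμinv (ρ g₁)
    have h2 := hμinv (ρ g₂)
    calc coeff 1 (ρ g₁ X) * coeff 1 (ρ g₂ X) * coeff 1 ((ρ g₁)⁻¹ X) * coeff 1 ((ρ g₂)⁻¹ X)
        = (coeff 1 (ρ g₁ X) * coeff 1 ((ρ g₁)⁻¹ X)) *
          (coeff 1 (ρ g₂ X) * coeff 1 ((ρ g₂)⁻¹ X)) := by ring
      _ = 1 := by rw [h1, h2, one_mul]
  -- two non-commuting elements of the derived subgroup
  obtain ⟨a, ha, b, hb, hab⟩ : ∃ a ∈ ⁅P, P⁆, ∃ b ∈ ⁅P, P⁆, a * b ≠ b * a := by
    by_contra hcon
    push Not at hcon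
    apply hP
    rw [Subgroup.commutator_eq_bot_iff_le_centralizer]
    intro g hg
    rw [Subgroup.mem_centralizer_iff]
    intro k hk
    exact hcon k hk g hg
  set Q : Subgroup Au := (⁅P, P⁆).map ρ with hQ
  have hQG : Q ≤ ρ.range := by
    rintro _ ⟨g, _, rfl⟩
    exact ⟨g, rfl⟩
  have hQJ : Q ≤ J 1 := by
    rintro _ ⟨g, hg, rfl⟩
    exact hcomm hg
  have hGpos : ∀ g ∈ ρ.range, 0 < coeff 1 (g X) := by
    rintro _ ⟨g, rfl⟩
    exact hpos g
  choose cf lf hred heq using (cop_exists_red (Γ := Γ))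
  obtain ⟨x', ⟨x, hx, rfl⟩, hx2⟩ := common hQJ
    (W.toList.map fun w => ((lf w).map fun p => (p.1, ρ p.2), ρ (cf w)⁻¹)) (by
      intro q hq
      rw [List.mem_map] at hq
      obtain ⟨w, hw, rfl⟩ := hq
      have hw1 : w ≠ 1 := hW w (Finset.mem_toList.1 hw)
      by_cases hl : lf w = []
      · refine ⟨1, Q.one_mem, ?_⟩
        intro h
        apply hw1
        have h2 : cf w = 1 := by
          have h3 : ρ (cf w)⁻¹ = ρ 1 := by
            rw [hl] at h
            rw [map_one]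
            exact h.symm
          exact inv_eq_one.1 (hρ h3)
        rw [heq w, hl, copV_nil, h2, map_one]
      · exact main_formal hGpos hQG hQJ (a := ρ a) (b := ρ b) ⟨a, ha, rfl⟩ ⟨b, hb, rfl⟩ (by
          intro h
          apply hab
          apply hρ
          simpa using h) _ (by
          intro p hp
          rw [List.mem_map] at hp
          obtain ⟨q, _, rfl⟩ := hp
          exact ⟨q.2, rfl⟩) (Top_Red_map ρ hρ _ (hred w)) (by simpa using hl) _)
  refine ⟨x, hx, ?_⟩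
  intro w hw h
  have h3 := hx2 _ (List.mem_map.2 ⟨w, Finset.mem_toList.2 hw, rfl⟩)
  apply h3
  simp only
  rw [Top_ev_map]
  congr 1
  rw [heq w, copV, map_mul, lift_ev, Monoid.Coprod.lift_apply_inl, MonoidHom.id_apply] at h
  exact eq_inv_of_mul_eq_one_right h

theorem top_germ {Γ : Type} [Group Γ] (h : Γ → ℝ → ℝ)
    (h1 : ∀ g, AnalyticAt ℝ (h g) 0 ∧ h g 0 = 0 ∧ 0 < deriv (h g) 0)
    (h2 : ∀ g g', h (g * g') =ᶠ[𝓝 0] h g ∘ h g')
    (h3 : ∀ g, h g =ᶠ[𝓝 0] id → g = 1)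
    (P : Subgroup Γ) (hP : ⁅⁅P, P⁆, ⁅P, P⁆⁆ ≠ ⊥)
    (W : Finset (Monoid.Coprod Γ (Multiplicative ℤ))) (hW : ∀ w ∈ W, w ≠ 1) :
    ∃ x ∈ ⁅P, P⁆, ∀ w ∈ W, Monoid.Coprod.lift (MonoidHom.id Γ) (zpowersHom Γ x) w ≠ 1 := by
  obtain ⟨ρ, hρ, hρ2⟩ := exists_rho h h1 h2 h3
  exact top_formal ρ hρ (fun g => (hρ2 g).1) P hP W hW

end Pool.Agent.H81.MI
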